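import Pool.Agent.MP_5c36ef_lc.Statement

/-!
# Geometry of embedded trees
-/

namespace Pool.Agent.MP_5c36ef_lc

open Metric Set

section

variable {X : Type} [MetricSpace X]

/-- points of a segment are determined by their distances to the ends -/
theorem eq_of_between (hT : ∀ x y z w : X,
    dist x y + dist z w ≤ max (dist x z + dist y w) (dist x w + dist y z)) {p q x y : X}
    (h1 : dist p x + dist x q ≤ dist p q) (h2 : dist p y + dist y q ≤ dist p q)
    (h3 : dist p x = dist p y) : x = y := by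
  have h := hT x y p q
  have e1 : dist x p = dist p x := dist_comm _ _
  have e2 : dist y p = dist p y := dist_comm _ _
  rw [e1, e2] at h
  have h4 : dist x y ≤ 0 := by
    rcases le_max_iff.1 h with h | h <;> linarith
  exact dist_le_zero.1 h4

theorem dist_geod {x y : X} {γ : ℝ → X} (h0 : γ 0 = x) (h1 : γ (dist x y) = y)
    (h : ∀ s ∈ Icc 0 (dist x y), ∀ t ∈ Icc 0 (dist x y), dist (γ s) (γ t) = |s - t|)
    {s : ℝ} (hs : s ∈ Icc 0 (dist x y)) : dist x (γ s) = s ∧ dist (γ s) y = dist x y - s := by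
  constructor
  · have := h 0 ⟨le_rfl, dist_nonneg⟩ s hs
    rw [h0] at this
    rw [this, zero_sub, abs_neg, abs_of_nonneg hs.1]
  · have := h s hs (dist x y) ⟨dist_nonneg, le_rfl⟩
    rw [h1] at this
    rw [this, abs_of_nonpos (by linarith [hs.2])]
    ring

theorem compactSpace (hT : IsEmbeddedTree X) : CompactSpace X := by
  obtain ⟨F, hF⟩ := hT.spanned
  choose γ h0 h1 h2 using hT.geodesic
  have hc : ∀ p q : X, IsCompact (γ p q '' Icc 0 (dist p q)) := by
    intro p q
    apply isCompact_Icc.image_of_continuousOn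
    rw [Metric.continuousOn_iff]
    intro b hb ε hε
    refine ⟨ε, hε, fun a ha hab => ?_⟩
    rw [h2 p q a ha b hb]
    exact hab
  have huniv : (univ : Set X) = ⋃ p ∈ F, ⋃ q ∈ F, γ p q '' Icc 0 (dist p q) := by
    symm
    rw [eq_univ_iff_forall]
    intro x
    obtain ⟨p, hp, q, hq, h⟩ := hF x
    simp only [mem_iUnion]
    refine ⟨p, hp, q, hq, dist p x, ⟨dist_nonneg, ?_⟩, ?_⟩
    · have : 0 ≤ dist x q := dist_nonneg
      linarith
    · have hm : dist p x ∈ Icc 0 (dist p q) := ⟨dist_nonneg, by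
        have : 0 ≤ dist x q := dist_nonneg
        linarith⟩
      obtain ⟨e1, e2⟩ := dist_geod (h0 p q) (h1 p q) (h2 p q) hm
      refine eq_of_between hT.fourPoint (p := p) (q := q) ?_ h.le ?_
      · rw [e1, e2]; linarith
      · rw [e1]
  rw [← isCompact_univ_iff, huniv]
  exact F.isCompact_biUnion fun p _ => F.isCompact_biUnion fun q _ => hc p q

/-- a ball with a diametral pair -/
structure Normal (m : X) (ρ : ℝ) : Prop where
  ends : ∃ u w, dist m u = ρ ∧ dist m w = ρ ∧ dist u w = 2 * ρ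

/-- every neighborhood subtree has a midpoint -/
theorem exists_normal (hT : IsEmbeddedTree X) (c : X) (r : ℝ) (hr : 0 < r) :
    ∃ m ρ, 0 ≤ ρ ∧ closedBall c r = closedBall m ρ ∧ Normal m ρ := by
  have := compactSpace hT
  have hcomp : IsCompact (closedBall c r) := isClosed_closedBall.isCompact
  have hne : (closedBall c r).Nonempty := ⟨c, by simp [hr.le]⟩
  obtain ⟨⟨u, w⟩, ⟨hu, hw⟩, hmax⟩ := (hcomp.prod hcomp).exists_isMaxOn (hne.prod hne)
    (f := fun p : X × X => dist p.1 p.2) continuous_dist.continuousOn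
  have hmax' : ∀ x ∈ closedBall c r, ∀ y ∈ closedBall c r, dist x y ≤ dist u w := by
    intro x hx y hy
    exact hmax (show (x, y) ∈ closedBall c r ×ˢ closedBall c r from ⟨hx, hy⟩)
  obtain ⟨γ, h0, h1, h2⟩ := hT.geodesic u w
  have hδ : 0 ≤ dist u w := dist_nonneg
  have hm : dist u w / 2 ∈ Icc 0 (dist u w) := ⟨by linarith, by linarith⟩
  obtain ⟨e1, e2⟩ := dist_geod h0 h1 h2 hm
  set m := γ (dist u w / 2)
  refine ⟨m, dist u w / 2, by linarith, ?_, ⟨u, w, ?_, ?_, ?_⟩⟩
  · ext x
    constructor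
    · intro hx
      have k1 := hmax' x hx u hu
      have k2 := hmax' x hx w hw
      have h := hT.fourPoint x m u w
      rw [mem_closedBall]
      have e1' : dist m u = dist u w / 2 := by rw [dist_comm]; exact e1
      rcases le_max_iff.1 h with h | h <;> linarith
    · intro hx
      rw [mem_closedBall] at hx hu hw
      simp only at hu hw
      have h := hT.fourPoint m c u w
      have e1' : dist m u = dist u w / 2 := by rw [dist_comm]; exact e1
      have e3 : dist c w ≤ r := by rw [dist_comm]; exact hw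
      have e4 : dist c u ≤ r := by rw [dist_comm]; exact hu
      have h5 : dist m c ≤ r - dist u w / 2 := by
        rcases le_max_iff.1 h with h | h <;> linarith
      rw [mem_closedBall]
      have := dist_triangle x m c
      linarith
  · rw [dist_comm]; exact e1
  · rw [e2]; ring
  · ring

/-- the diameter of the intersection of two neighborhood subtrees -/
noncomputable def J (m m' : X) (ρ ρ' : ℝ) : ℝ := min (min (2 * ρ) (2 * ρ')) (ρ + ρ' - dist m m')

theorem J_comm (m m' : X) (ρ ρ' : ℝ) : J m m' ρ ρ' = J m' m ρ' ρ := by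
  unfold J
  rw [min_comm (2 * ρ), add_comm ρ, dist_comm]

theorem dist_le_J (hT : IsEmbeddedTree X) {m m' p q : X} {ρ ρ' : ℝ}
    (hp : p ∈ closedBall m ρ ∩ closedBall m' ρ') (hq : q ∈ closedBall m ρ ∩ closedBall m' ρ') :
    dist p q ≤ J m m' ρ ρ' := by
  have p1 := mem_closedBall.1 hp.1
  have p2 := mem_closedBall.1 hp.2
  have q1 := mem_closedBall.1 hq.1
  have q2 := mem_closedBall.1 hq.2
  have h := hT.fourPoint p q m m'
  have t1 := dist_triangle p m q
  have t2 := dist_triangle p m' q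
  rw [dist_comm m q] at t1
  rw [dist_comm m' q] at t2
  unfold J
  refine le_min (le_min ?_ ?_) ?_
  · linarith
  · linarith
  · rcases le_max_iff.1 h with h | h <;> linarith

/-- a normal ball has a point in the direction away from any given point -/
theorem exists_away (hT : IsEmbeddedTree X) {m : X} {ρ : ℝ} (h : Normal m ρ) (b : X) :
    ∃ u, dist m u = ρ ∧ dist u b = ρ + dist m b := by
  obtain ⟨u, w, hu, hw, huw⟩ := h.ends
  have h := hT.fourPoint u w m b
  have t1 := dist_triangle u m b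
  have t2 := dist_triangle w m b
  rw [dist_comm u m, hu] at t1 h
  rw [dist_comm w m, hw] at t2 h
  rw [huw] at h
  rcases le_max_iff.1 h with h | h
  · exact ⟨w, hw, by linarith⟩
  · exact ⟨u, hu, by linarith⟩

theorem exists_dist_eq_J_aux (hT : IsEmbeddedTree X) {m m' : X} {ρ ρ' : ℝ} (h : Normal m ρ)
    (h' : Normal m' ρ') (hle : ρ ≤ ρ') (hJ : 0 < J m m' ρ ρ') :
    ∃ p ∈ closedBall m ρ ∩ closedBall m' ρ', ∃ q ∈ closedBall m ρ ∩ closedBall m' ρ',
      dist p q = J m m' ρ ρ' := by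
  by_cases hn : dist m m' ≤ ρ' - ρ
  · -- nested
    obtain ⟨u, w, hu, hw, huw⟩ := h.ends
    have hJ' : J m m' ρ ρ' = 2 * ρ := by
      unfold J
      rw [min_eq_left (by linarith : 2 * ρ ≤ 2 * ρ'), min_eq_left (by linarith)]
    have key : ∀ x, dist m x = ρ → x ∈ closedBall m ρ ∩ closedBall m' ρ' := by
      intro x hx
      refine ⟨?_, ?_⟩
      · rw [mem_closedBall, dist_comm]; exact hx.le
      · rw [mem_closedBall]
        have := dist_triangle x m m'
        rw [dist_comm x m] at this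
        linarith
    exact ⟨u, key u hu, w, key w hw, by rw [huw, hJ']⟩
  · push Not at hn
    have hJ' : J m m' ρ ρ' = ρ + ρ' - dist m m' := by
      unfold J
      rw [min_eq_left (by linarith : 2 * ρ ≤ 2 * ρ'), min_eq_right (by linarith)]
    rw [hJ'] at hJ ⊢
    have hd : 0 < dist m m' := by linarith
    obtain ⟨u, hu, hub⟩ := exists_away hT h m'
    obtain ⟨v, hv, hva⟩ := exists_away hT h' m
    have hρ : 0 ≤ ρ := by rw [← hu]; exact dist_nonneg
    have huv : dist u v = ρ + dist m m' + ρ' := by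
      apply le_antisymm
      · have := dist_triangle4 u m m' v
        rw [dist_comm u m] at this
        linarith
      · have := hT.fourPoint u m' v m
        rw [dist_comm m' v] at hv
        rw [dist_comm u m, hu, dist_comm m' v, hv, hub, hva, dist_comm m' m] at this
        rcases le_max_iff.1 this with h | h <;> linarith
    obtain ⟨γ, h0, h1, h2⟩ := hT.geodesic u v
    have hin : ∀ s, 0 ≤ s → s ≤ ρ + dist m m' + ρ' → s ∈ Icc 0 (dist u v) := by
      intro s hs hs'
      rw [huv]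
      exact ⟨hs, hs'⟩
    have em : γ ρ = m := by
      obtain ⟨e1, e2⟩ := dist_geod h0 h1 h2 (hin ρ hρ (by linarith))
      refine eq_of_between hT.fourPoint (p := u) (q := v) ?_ ?_ ?_
      · rw [e1, e2]; linarith
      · rw [dist_comm u m, dist_comm m v, hu, hva, huv, dist_comm m' m]; linarith
      · rw [e1, dist_comm u m, hu]
    have em' : γ (ρ + dist m m') = m' := by
      obtain ⟨e1, e2⟩ := dist_geod h0 h1 h2 (hin (ρ + dist m m') (by linarith) (by linarith))
      refine eq_of_between hT.fourPoint (p := u) (q := v) ?_ ?_ ?_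
      · rw [e1, e2]; linarith
      · rw [hub, hv, huv]
      · rw [e1, hub]
    have key : ∀ s, 0 ≤ s → s ≤ ρ + dist m m' + ρ' → |s - ρ| ≤ ρ → |s - (ρ + dist m m')| ≤ ρ' →
        γ s ∈ closedBall m ρ ∩ closedBall m' ρ' := by
      intro s hs hs' k1 k2
      refine ⟨?_, ?_⟩
      · rw [mem_closedBall, ← em, h2 s (hin s hs hs') ρ (hin ρ hρ (by linarith))]
        exact k1
      · rw [mem_closedBall]
        nth_rw 1 [← em']
        rw [h2 s (hin s hs hs') _ (hin _ (by linarith) (by linarith))]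
        exact k2
    refine ⟨γ (ρ + dist m m' - ρ'), key _ (by linarith) (by linarith) ?_ ?_, γ (2 * ρ),
      key _ (by linarith) (by linarith) ?_ ?_, ?_⟩
    · rw [abs_le]; constructor <;> linarith
    · rw [abs_le]; constructor <;> linarith
    · rw [abs_le]; constructor <;> linarith
    · rw [abs_le]; constructor <;> linarith
    · rw [h2 _ (hin _ (by linarith) (by linarith)) _ (hin _ (by linarith) (by linarith)),
        abs_sub_comm, abs_of_nonneg (by linarith)]
      ring

theorem exists_dist_eq_J (hT : IsEmbeddedTree X) {m m' : X} {ρ ρ' : ℝ} (h : Normal m ρ)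
    (h' : Normal m' ρ') (hJ : 0 < J m m' ρ ρ') :
    ∃ p ∈ closedBall m ρ ∩ closedBall m' ρ', ∃ q ∈ closedBall m ρ ∩ closedBall m' ρ',
      dist p q = J m m' ρ ρ' := by
  rcases le_total ρ ρ' with hle | hle
  · exact exists_dist_eq_J_aux hT h h' hle hJ
  · rw [J_comm] at hJ ⊢
    rw [inter_comm]
    exact exists_dist_eq_J_aux hT h' h hle hJ

theorem meet_iff (hT : IsEmbeddedTree X) {m m' : X} {ρ ρ' t : ℝ} (h : Normal m ρ)
    (h' : Normal m' ρ') (ht : 0 < t) :
    ((closedBall m ρ ∩ closedBall m' ρ').Nonempty ∧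
      t ≤ Metric.diam (closedBall m ρ ∩ closedBall m' ρ')) ↔ t ≤ J m m' ρ ρ' := by
  constructor
  · rintro ⟨⟨x, hx⟩, h2⟩
    refine h2.trans (Metric.diam_le_of_forall_dist_le ?_ fun p hp q hq => dist_le_J hT hp hq)
    have := dist_le_J hT hx hx
    rwa [dist_self] at this
  · intro hJ
    obtain ⟨p, hp, q, hq, hpq⟩ := exists_dist_eq_J hT h h' (ht.trans_le hJ)
    refine ⟨⟨p, hp⟩, ?_⟩
    rw [← hpq] at hJ
    refine hJ.trans (Metric.dist_le_diam_of_mem ?_ hp hq)
    exact isBounded_closedBall.subset inter_subset_left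

end

/-! ### the order of the keys -/

/-- the key of a vertex with radius `ρ` and tolerance `t` -/
noncomputable def key (ρ t : ℝ) : ℝ ×ₗ ℕ :=
  if t ≤ 2 * ρ then toLex (t, 0) else toLex (2 * ρ, 1)

section

variable {X : Type} [MetricSpace X]

theorem F1 {m m' : X} {ρ ρ' t t' : ℝ} (hadj : min t t' ≤ J m m' ρ ρ') (hk : key ρ t ≤ key ρ' t') :
    t ≤ 2 * ρ ∧ dist m m' - ρ - ρ' ≤ -t := by
  have j1 : J m m' ρ ρ' ≤ 2 * ρ := (min_le_left _ _).trans (min_le_left _ _)
  have j2 : J m m' ρ ρ' ≤ 2 * ρ' := (min_le_left _ _).trans (min_le_right _ _)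
  have j3 : J m m' ρ ρ' ≤ ρ + ρ' - dist m m' := min_le_right _ _
  unfold key at hk
  rcases min_le_iff.1 hadj with h | h
  · exact ⟨h.trans j1, by linarith⟩
  · have hb' : t' ≤ 2 * ρ' := h.trans j2
    rw [if_pos hb'] at hk
    by_cases hb : t ≤ 2 * ρ
    · rw [if_pos hb, Prod.Lex.toLex_le_toLex] at hk
      have : t ≤ t' := by
        rcases hk with hk | hk
        · exact hk.le
        · exact hk.1.le
      exact ⟨hb, by linarith⟩
    · rw [if_neg hb, Prod.Lex.toLex_le_toLex] at hk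
      exfalso
      simp only at hk
      have h3 : t' ≤ 2 * ρ := h.trans j1
      rcases hk with hk | ⟨_, hk⟩
      · linarith
      · omega

theorem F2 {m m' : X} {ρ ρ' t t' : ℝ} (hadj : ¬ min t t' ≤ J m m' ρ ρ')
    (hk : key ρ t ≤ key ρ' t') (hb : t ≤ 2 * ρ) : -t < dist m m' - ρ - ρ' := by
  push Not at hadj
  have h1 : J m m' ρ ρ' < t := hadj.trans_le (min_le_left _ _)
  have h2 : t ≤ 2 * ρ' := by
    unfold key at hk
    rw [if_pos hb] at hk
    by_cases hb' : t' ≤ 2 * ρ'
    · rw [if_pos hb', Prod.Lex.toLex_le_toLex] at hk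
      rcases hk with hk | hk
      · exact hk.le.trans hb'
      · exact hk.1.le.trans hb'
    · rw [if_neg hb', Prod.Lex.toLex_le_toLex] at hk
      rcases hk with hk | hk
      · exact hk.le
      · exact hk.1.le
  unfold J at h1
  rcases min_lt_iff.1 h1 with h | h
  · rcases min_lt_iff.1 h with h | h <;> linarith
  · linarith

theorem key_le_bounded {ρ ρ' t t' : ℝ} (hb : t ≤ 2 * ρ) (hb' : t' ≤ 2 * ρ')
    (hk : key ρ t ≤ key ρ' t') : t ≤ t' := by
  unfold key at hk
  rw [if_pos hb, if_pos hb', Prod.Lex.toLex_le_toLex] at hk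
  rcases hk with hk | hk
  · exact hk.le
  · exact hk.1.le

end

/-- the tolerances of an induced 4-cycle -/
theorem exists_keys {V : Type} (G : SimpleGraph V) (h : IsNeST G) :
    ∃ κ : V → ℝ ×ₗ ℕ, ∀ a b c d, G.Adj a b → G.Adj b c → G.Adj c d → G.Adj d a →
      ¬ G.Adj a c → ¬ G.Adj b d → a ≠ c → b ≠ d →
      (κ a < κ b ∧ κ a < κ d ∧ κ c < κ b ∧ κ c < κ d) ∨
      (κ b < κ a ∧ κ b < κ c ∧ κ d < κ a ∧ κ d < κ c) := by
  obtain ⟨X, _, hT, c, r, t, hr, ht, hG⟩ := h
  choose m ρ _ hball hnorm using fun v => exists_normal hT (c v) (r v) (hr v)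
  have hadj : ∀ x y, x ≠ y → (G.Adj x y ↔ min (t x) (t y) ≤ J (m x) (m y) (ρ x) (ρ y)) := by
    intro x y hxy
    rw [hG x y hxy, hball x, hball y]
    exact meet_iff hT (hnorm x) (hnorm y) (lt_min (ht x) (ht y))
  set κ : V → ℝ ×ₗ ℕ := fun v => key (ρ v) (t v) with hκ
  refine ⟨κ, ?_⟩
  have A1 : ∀ x y, G.Adj x y → κ x ≤ κ y → t x ≤ 2 * ρ x ∧
      dist (m x) (m y) - ρ x - ρ y ≤ - t x := fun x y h hk =>
    F1 ((hadj x y h.ne).1 h) hk
  have A2 : ∀ x y, x ≠ y → ¬ G.Adj x y → κ x ≤ κ y → t x ≤ 2 * ρ x →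
      - t x < dist (m x) (m y) - ρ x - ρ y := fun x y hne h hk hb =>
    F2 (fun h' => h ((hadj x y hne).2 h')) hk hb
  -- `a` has the smallest key and `κ b ≤ κ d`
  have main : ∀ a b c d, G.Adj a b → G.Adj b c → G.Adj c d → G.Adj d a →
      ¬ G.Adj a c → ¬ G.Adj b d → a ≠ c → b ≠ d → κ a ≤ κ b → κ a ≤ κ c → κ a ≤ κ d →
      κ b ≤ κ d → κ c < κ b := by
    intro a b c d hab hbc hcd hda hac hbd hnac hnbd kab kac kad kbd
    by_contra hcon
    push Not at hcon
    obtain ⟨ba, e1⟩ := A1 a b hab kab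
    obtain ⟨_, e2⟩ := A1 a d hda.symm kad
    have e3 := A2 a c hnac hac kac ba
    obtain ⟨bb, e4⟩ := A1 b c hbc hcon
    have e5 := A2 b d hnbd hbd kbd bb
    have e6 : dist (m c) (m d) - ρ c - ρ d ≤ - t b := by
      rcases le_total (κ c) (κ d) with hk | hk
      · obtain ⟨bc, e⟩ := A1 c d hcd hk
        have := key_le_bounded bb bc hcon
        linarith
      · obtain ⟨bd, e⟩ := A1 d c hcd.symm hk
        have := key_le_bounded bb bd kbd
        rw [dist_comm] at e
        linarith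
    have h4 := hT.fourPoint (m a) (m c) (m b) (m d)
    rw [dist_comm (m c) (m b)] at h4
    rcases le_max_iff.1 h4 with h4 | h4 <;> linarith
  -- `a` has the smallest key
  have main2 : ∀ a b c d, G.Adj a b → G.Adj b c → G.Adj c d → G.Adj d a →
      ¬ G.Adj a c → ¬ G.Adj b d → a ≠ c → b ≠ d → κ a ≤ κ b → κ a ≤ κ c → κ a ≤ κ d →
      κ a < κ b ∧ κ a < κ d ∧ κ c < κ b ∧ κ c < κ d := by
    intro a b c d hab hbc hcd hda hac hbd hnac hnbd kab kac kad
    rcases le_total (κ b) (κ d) with k | k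
    · have := main a b c d hab hbc hcd hda hac hbd hnac hnbd kab kac kad k
      exact ⟨kac.trans_lt this, (kac.trans_lt this).trans_le k, this, this.trans_le k⟩
    · have := main a d c b hda.symm hcd.symm hbc.symm hab.symm hac (fun h => hbd h.symm) hnac
        hnbd.symm kad kac kab k
      exact ⟨(kac.trans_lt this).trans_le k, kac.trans_lt this, this.trans_le k, this⟩
  intro a b c d hab hbc hcd hda hac hbd hnac hnbd
  have hca : ¬ G.Adj c a := fun h => hac h.symm
  have hdb : ¬ G.Adj d b := fun h => hbd h.symm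
  rcases le_total (κ a) (κ c) with k1 | k1 <;> rcases le_total (κ b) (κ d) with k2 | k2
  · rcases le_total (κ a) (κ b) with k3 | k3
    · exact Or.inl (main2 a b c d hab hbc hcd hda hac hbd hnac hnbd k3 k1 (k3.trans k2))
    · obtain ⟨x1, x2, x3, x4⟩ := main2 b c d a hbc hcd hda hab hbd hca hnbd hnac.symm
        (k3.trans k1) k2 k3
      exact Or.inr ⟨x2, x1, x4, x3⟩
  · rcases le_total (κ a) (κ d) with k3 | k3
    · exact Or.inl (main2 a b c d hab hbc hcd hda hac hbd hnac hnbd (k3.trans k2) k1 k3)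
    · obtain ⟨x1, x2, x3, x4⟩ := main2 d a b c hda hab hbc hcd hdb hac hnbd.symm hnac
        k3 k2 (k3.trans k1)
      exact Or.inr ⟨x3, x4, x1, x2⟩
  · rcases le_total (κ c) (κ b) with k3 | k3
    · obtain ⟨x1, x2, x3, x4⟩ := main2 c d a b hcd hda hab hbc hca hdb hnac.symm hnbd.symm
        (k3.trans k2) k1 k3
      exact Or.inl ⟨x4, x3, x2, x1⟩
    · obtain ⟨x1, x2, x3, x4⟩ := main2 b c d a hbc hcd hda hab hbd hca hnbd hnac.symm
        k3 k2 (k3.trans k1)
      exact Or.inr ⟨x2, x1, x4, x3⟩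
  · rcases le_total (κ c) (κ d) with k3 | k3
    · obtain ⟨x1, x2, x3, x4⟩ := main2 c d a b hcd hda hab hbc hca hdb hnac.symm hnbd.symm
        k3 k1 (k3.trans k2)
      exact Or.inl ⟨x4, x3, x2, x1⟩
    · obtain ⟨x1, x2, x3, x4⟩ := main2 d a b c hda hab hbc hcd hdb hac hnbd.symm hnac
        (k3.trans k1) k2 k3
      exact Or.inr ⟨x3, x4, x1, x2⟩

end Pool.Agent.MP_5c36ef_lc
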