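import Pool.Agent.MP_5c36ef_lc.Statement

/-!
# Rooted trees from branching heights

A finite rooted tree all of whose branches (indexed by `V`) have length `Λ`; the branches `v` and
`w` agree up to height `c v w`.
-/

namespace Pool.Agent.MP_5c36ef_lc

open Metric Set

/-- branching data -/
structure Branching (V : Type) where
  Λ : ℝ
  c : V → V → ℝ
  Λ_nonneg : 0 ≤ Λ
  c_nonneg : ∀ v w, 0 ≤ c v w
  c_self : ∀ v, Λ ≤ c v v
  c_comm : ∀ v w, c v w = c w v
  c_ultra : ∀ u v w, min (c u v) (c v w) ≤ c u w

namespace Branching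

variable {V : Type} (B : Branching V)

/-- points: a branch and a height (truncated to `[0, Λ]`) -/
structure Pt (B : Branching V) where
  br : V
  h : ℝ

/-- the point at height `s` of the branch `v` -/
def pt (v : V) (s : ℝ) : B.Pt := ⟨v, s⟩

/-- height of a point -/
noncomputable def ht (p : B.Pt) : ℝ := max 0 (min p.h B.Λ)

theorem ht_nonneg (p : B.Pt) : 0 ≤ B.ht p := le_max_left _ _

theorem ht_le (p : B.Pt) : B.ht p ≤ B.Λ := max_le B.Λ_nonneg (min_le_right _ _)

theorem ht_of_mem (v : V) {s : ℝ} (h0 : 0 ≤ s) (h1 : s ≤ B.Λ) : B.ht (B.pt v s) = s := by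
  show max 0 (min s B.Λ) = s
  rw [min_eq_left h1, max_eq_right h0]

/-- height of the meet of two points -/
noncomputable def M (p q : B.Pt) : ℝ := min (min (B.ht p) (B.ht q)) (B.c p.br q.br)

theorem M_nonneg (p q : B.Pt) : 0 ≤ B.M p q :=
  le_min (le_min (B.ht_nonneg p) (B.ht_nonneg q)) (B.c_nonneg _ _)

theorem M_le_left (p q : B.Pt) : B.M p q ≤ B.ht p := (min_le_left _ _).trans (min_le_left _ _)

theorem M_le_right (p q : B.Pt) : B.M p q ≤ B.ht q := (min_le_left _ _).trans (min_le_right _ _)

theorem M_le_c (p q : B.Pt) : B.M p q ≤ B.c p.br q.br := min_le_right _ _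

theorem M_comm (p q : B.Pt) : B.M p q = B.M q p := by
  unfold M
  rw [min_comm (B.ht p), B.c_comm]

theorem M_self (p : B.Pt) : B.M p p = B.ht p := by
  unfold M
  rw [min_self, min_eq_left ((B.ht_le p).trans (B.c_self _))]

theorem M_ultra (p q r : B.Pt) : min (B.M p q) (B.M q r) ≤ B.M p r := by
  refine le_min (le_min ?_ ?_) ?_
  · exact (min_le_left _ _).trans (B.M_le_left p q)
  · exact (min_le_right _ _).trans (B.M_le_right q r)
  · exact (min_le_min (B.M_le_c p q) (B.M_le_c q r)).trans (B.c_ultra _ _ _)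

noncomputable instance : PseudoMetricSpace B.Pt where
  dist p q := B.ht p + B.ht q - 2 * B.M p q
  dist_self p := by
    show B.ht p + B.ht p - 2 * B.M p p = 0
    rw [M_self]; ring
  dist_comm p q := by
    show B.ht p + B.ht q - 2 * B.M p q = B.ht q + B.ht p - 2 * B.M q p
    rw [M_comm]; ring
  dist_triangle p q r := by
    show B.ht p + B.ht r - 2 * B.M p r ≤ B.ht p + B.ht q - 2 * B.M p q +
      (B.ht q + B.ht r - 2 * B.M q r)
    have h1 := B.M_ultra p q r
    have h2 := B.M_le_right p q
    have h3 := B.M_le_left q r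
    rcases min_le_iff.1 h1 with h | h <;> linarith

theorem dist_def (p q : B.Pt) : dist p q = B.ht p + B.ht q - 2 * B.M p q := rfl

theorem four_point (x y z w : B.Pt) :
    dist x y + dist z w ≤ max (dist x z + dist y w) (dist x w + dist y z) := by
  simp only [dist_def]
  have e1 := B.M_ultra x w y
  have e2 := B.M_ultra x z y
  have e3 := B.M_ultra z x w
  have e4 := B.M_ultra z y w
  rw [B.M_comm w y] at e1
  rw [B.M_comm z y] at e2
  rw [B.M_comm z x] at e3
  rw [B.M_comm z y] at e4
  set a := B.M x z
  set b := B.M y w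
  set c := B.M x w
  set d := B.M y z
  set e := B.M x y
  set f := B.M z w
  have key : min (a + b) (c + d) ≤ e + f := by
    by_contra hcon
    rw [min_le_iff, not_or, not_le, not_le] at hcon
    obtain ⟨c1, c2⟩ := hcon
    rcases min_le_iff.1 e1 with e1 | e1 <;> rcases min_le_iff.1 e2 with e2 | e2 <;>
      rcases min_le_iff.1 e3 with e3 | e3 <;> rcases min_le_iff.1 e4 with e4 | e4 <;>
      linarith
  rcases min_le_iff.1 key with h | h
  · exact le_max_of_le_left (by linarith)
  · exact le_max_of_le_right (by linarith)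

/-- the segment between two points -/
noncomputable def seg (p q : B.Pt) (s : ℝ) : B.Pt :=
  if s ≤ B.ht p - B.M p q then B.pt p.br (B.ht p - s) else B.pt q.br (s - B.ht p + 2 * B.M p q)

theorem dist_same (v : V) {s t : ℝ} (hs : 0 ≤ s) (hs' : s ≤ B.Λ) (ht : 0 ≤ t) (ht' : t ≤ B.Λ) :
    dist (B.pt v s) (B.pt v t) = |s - t| := by
  rw [dist_def]
  have h : B.M (B.pt v s) (B.pt v t) = min s t := by
    unfold M
    rw [B.ht_of_mem v hs hs', B.ht_of_mem v ht ht']
    exact min_eq_left ((min_le_left _ _).trans (hs'.trans (B.c_self v)))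
  rw [h, B.ht_of_mem v hs hs', B.ht_of_mem v ht ht']
  rcases le_total s t with h | h
  · rw [min_eq_left h, abs_of_nonpos (by linarith)]; ring
  · rw [min_eq_right h, abs_of_nonneg (by linarith)]; ring

theorem dist_cross (v w : V) {s t m : ℝ} (hs : 0 ≤ s) (hs' : s ≤ B.Λ) (ht : 0 ≤ t) (ht' : t ≤ B.Λ)
    (h : min (min s t) (B.c v w) = m) : dist (B.pt v s) (B.pt w t) = s + t - 2 * m := by
  rw [dist_def]
  unfold M
  rw [B.ht_of_mem v hs hs', B.ht_of_mem w ht ht']
  show s + t - 2 * min (min s t) (B.c v w) = s + t - 2 * m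
  rw [h]

theorem dist_seg (p q : B.Pt) : ∀ s ∈ Icc 0 (dist p q), ∀ t ∈ Icc 0 (dist p q),
    dist (B.seg p q s) (B.seg p q t) = |s - t| := by
  have main : ∀ s ∈ Icc 0 (dist p q), ∀ t ∈ Icc 0 (dist p q), s ≤ t →
      dist (B.seg p q s) (B.seg p q t) = |s - t| := by
    rintro s ⟨hs, hs'⟩ t ⟨ht, ht'⟩ hst
    rw [dist_def] at hs' ht'
    have l1 := B.ht_le p
    have l2 := B.ht_le q
    have m1 := B.M_le_left p q
    have m2 := B.M_le_right p q
    have m3 := B.M_le_c p q
    have m0 := B.M_nonneg p q
    unfold seg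
    split_ifs with h1 h2 h2
    · rw [B.dist_same p.br (by linarith) (by linarith) (by linarith) (by linarith),
        abs_sub_comm]
      congr 1; ring
    · push Not at h2
      rw [B.dist_cross p.br q.br (m := B.M p q) (by linarith) (by linarith) (by linarith)
        (by linarith), abs_of_nonpos (by linarith)]
      · ring
      · apply le_antisymm
        · unfold M
          refine le_min (le_min ?_ ?_) (min_le_right _ _)
          · exact (min_le_left _ _).trans ((min_le_left _ _).trans (by linarith))
          · refine (min_le_left _ _).trans ((min_le_right _ _).trans ?_)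
            have : B.M p q = min (min (B.ht p) (B.ht q)) (B.c p.br q.br) := rfl
            linarith
        · refine le_min (le_min ?_ ?_) m3
          · linarith
          · linarith
    · push Not at h1
      linarith
    · push Not at h1 h2
      rw [B.dist_same q.br (by linarith) (by linarith) (by linarith) (by linarith)]
      congr 1; ring
  intro s hs t ht
  rcases le_total s t with h | h
  · exact main s hs t ht h
  · rw [dist_comm, abs_sub_comm]
    exact main t ht s hs h

theorem dist_seg_zero (p q : B.Pt) : dist (B.seg p q 0) p = 0 := by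
  have m1 := B.M_le_left p q
  unfold seg
  rw [if_pos (by linarith), sub_zero, dist_def]
  have h : B.ht (B.pt p.br (B.ht p)) = B.ht p := B.ht_of_mem _ (B.ht_nonneg p) (B.ht_le p)
  have h2 : B.M (B.pt p.br (B.ht p)) p = B.ht p := by
    unfold M
    rw [h, min_self]
    exact min_eq_left ((B.ht_le p).trans (B.c_self _))
  rw [h, h2]; ring

theorem dist_seg_one (p q : B.Pt) : dist (B.seg p q (dist p q)) q = 0 := by
  have l1 := B.ht_le p
  have l2 := B.ht_le q
  have m1 := B.M_le_left p q
  have m2 := B.M_le_right p q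
  have m3 := B.M_le_c p q
  have m0 := B.M_nonneg p q
  unfold seg
  rw [B.dist_def p q]
  split_ifs with h
  · -- `ht q = M`
    have hq : B.ht q = B.M p q := by linarith
    rw [dist_def]
    have e : B.ht p - (B.ht p + B.ht q - 2 * B.M p q) = B.M p q := by linarith
    rw [e]
    have h1 : B.ht (B.pt p.br (B.M p q)) = B.M p q := B.ht_of_mem _ m0 (by linarith)
    have h2 : B.M (B.pt p.br (B.M p q)) q = B.M p q := by
      unfold M at *
      rw [h1]
      apply le_antisymm
      · exact (min_le_left _ _).trans (min_le_left _ _)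
      · exact le_min (le_min le_rfl m2) m3
    rw [h1, h2, hq]; ring
  · have e : B.ht p + B.ht q - 2 * B.M p q - B.ht p + 2 * B.M p q = B.ht q := by ring
    rw [e, dist_def]
    have h1 : B.ht (B.pt q.br (B.ht q)) = B.ht q := B.ht_of_mem _ (B.ht_nonneg q) l2
    have h2 : B.M (B.pt q.br (B.ht q)) q = B.ht q := by
      unfold M
      rw [h1, min_self]
      exact min_eq_left (l2.trans (B.c_self _))
    rw [h1, h2]; ring

theorem spanned (x : B.Pt) :
    dist (B.pt x.br 0) x + dist x (B.pt x.br B.Λ) = dist (B.pt x.br 0) (B.pt x.br B.Λ) := by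
  have h0 : B.ht (B.pt x.br 0) = 0 := B.ht_of_mem _ le_rfl B.Λ_nonneg
  have h1 : B.ht (B.pt x.br B.Λ) = B.Λ := B.ht_of_mem _ B.Λ_nonneg le_rfl
  have e1 : B.M (B.pt x.br 0) x = 0 :=
    le_antisymm ((B.M_le_left _ _).trans h0.le) (B.M_nonneg _ _)
  have e2 : B.M (B.pt x.br 0) (B.pt x.br B.Λ) = 0 :=
    le_antisymm ((B.M_le_left _ _).trans h0.le) (B.M_nonneg _ _)
  have e3 : B.M x (B.pt x.br B.Λ) = B.ht x := by
    unfold M
    rw [h1, min_eq_left (B.ht_le x)]
    exact min_eq_left ((B.ht_le x).trans (B.c_self _))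
  simp only [dist_def, h0, h1, e1, e2, e3]
  ring

/-- the tree -/
abbrev Tree : Type := SeparationQuotient B.Pt

/-- the projection -/
noncomputable def pr (p : B.Pt) : B.Tree := SeparationQuotient.mk p

theorem dist_pr (p q : B.Pt) : dist (B.pr p) (B.pr q) = dist p q :=
  SeparationQuotient.dist_mk p q

theorem exists_pr (x : B.Tree) : ∃ p, B.pr p = x := SeparationQuotient.surjective_mk x

theorem isEmbeddedTree [Fintype V] [Nonempty V] : IsEmbeddedTree B.Tree where
  nonempty := ⟨B.pr (B.pt (Classical.arbitrary V) 0)⟩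
  geodesic := by
    intro x y
    obtain ⟨p, rfl⟩ := B.exists_pr x
    obtain ⟨q, rfl⟩ := B.exists_pr y
    refine ⟨fun s => B.pr (B.seg p q s), ?_, ?_, ?_⟩
    · rw [← dist_eq_zero, dist_pr]
      exact B.dist_seg_zero p q
    · rw [← dist_eq_zero, dist_pr, dist_pr]
      exact B.dist_seg_one p q
    · simp only [dist_pr]
      exact B.dist_seg p q
  fourPoint := by
    intro x y z w
    obtain ⟨p, rfl⟩ := B.exists_pr x
    obtain ⟨q, rfl⟩ := B.exists_pr y
    obtain ⟨r, rfl⟩ := B.exists_pr z
    obtain ⟨s, rfl⟩ := B.exists_pr w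
    simp only [dist_pr]
    exact B.four_point p q r s
  spanned := by
    classical
    refine ⟨(Finset.univ.image fun v => B.pr (B.pt v 0)) ∪ (Finset.univ.image fun v => B.pr (B.pt v B.Λ)),
      fun x => ?_⟩
    obtain ⟨p, rfl⟩ := B.exists_pr x
    refine ⟨B.pr (B.pt p.br 0), by simp, B.pr (B.pt p.br B.Λ), by simp, ?_⟩
    simp only [dist_pr]
    exact B.spanned p

end Branching

/-- A sufficient condition for being a NeST graph -/
theorem isNeST_of_depths {V : Type} [Fintype V] (G : SimpleGraph V) (c : V → V → ℤ)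
    (dep s : V → ℤ) (c_nonneg : ∀ v w, 0 ≤ c v w) (c_comm : ∀ v w, c v w = c w v)
    (c_ultra : ∀ u v w, min (c u v) (c v w) ≤ c u w) (c_dep : ∀ v w, c v w ≤ dep v)
    (h : ∀ v w, v ≠ w → (G.Adj v w ↔ dep v + dep w - 2 * c v w ≤ max (s v) (s w))) :
    IsNeST G := by
  classical
  -- bounds
  obtain ⟨K, hK⟩ : ∃ K : ℝ, ∀ v, (dep v : ℝ) ≤ K ∧ (s v : ℝ) ≤ K := by
    obtain ⟨K1, hK1⟩ := (Set.finite_range fun v => (dep v : ℝ)).bddAbove
    obtain ⟨K2, hK2⟩ := (Set.finite_range fun v => (s v : ℝ)).bddAbove
    exact ⟨max K1 K2, fun v => ⟨le_max_of_le_left (hK1 ⟨v, rfl⟩),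
      le_max_of_le_right (hK2 ⟨v, rfl⟩)⟩⟩
  set R : ℝ := 2 * |K| + 1 with hR
  have hK0 : K ≤ |K| := le_abs_self K
  have hK1 : 0 ≤ |K| := abs_nonneg K
  set Λ : ℝ := |K| + R with hΛ
  let B : Branching V :=
    { Λ := Λ
      c := fun v w => if v = w then Λ else min Λ (c v w : ℝ)
      Λ_nonneg := by linarith
      c_nonneg := by
        intro v w
        split_ifs
        · linarith
        · exact le_min (by linarith) (by exact_mod_cast c_nonneg v w)
      c_self := by intro v; simp
      c_comm := by
        intro v w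
        by_cases hvw : v = w
        · simp [hvw]
        · rw [if_neg hvw, if_neg (Ne.symm hvw), c_comm]
      c_ultra := by
        intro u v w
        by_cases huw : u = w
        · rw [if_pos huw]
          refine (min_le_left _ _).trans ?_
          split_ifs
          · exact le_rfl
          · exact min_le_left _ _
        · rw [if_neg huw]
          by_cases huv : u = v
          · subst huv
            rw [if_neg huw]
            exact min_le_right _ _
          · by_cases hvw : v = w
            · subst hvw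
              rw [if_neg huv]
              exact min_le_left _ _
            · rw [if_neg huv, if_neg hvw]
              refine le_min ((min_le_left _ _).trans (min_le_left _ _)) ?_
              have : (min (c u v : ℝ) (c v w : ℝ)) ≤ (c u w : ℝ) := by
                exact_mod_cast c_ultra u v w
              exact (min_le_min (min_le_right _ _) (min_le_right _ _)).trans this }
  rcases isEmpty_or_nonempty V with hV | hV
  · -- the empty graph
    refine ⟨Unit, inferInstance, ?_, fun v => (hV.false v).elim, fun _ => 1, fun _ => 1,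
      fun _ => one_pos, fun _ => one_pos, fun x => (hV.false x).elim⟩
    refine ⟨inferInstance, ?_, ?_, ?_⟩
    · intro x y
      refine ⟨fun _ => (), rfl, rfl, ?_⟩
      intro s hs t ht
      simp only [dist_self, Icc_self, mem_singleton_iff] at hs ht ⊢
      rw [hs, ht]; simp
    · intro x y z w
      simp
    · exact ⟨{()}, fun x => ⟨(), by simp, (), by simp, by simp⟩⟩
  refine ⟨B.Tree, inferInstance, B.isEmbeddedTree, fun v => B.pr (B.pt v (dep v : ℝ)), fun _ => R,
    fun v => 2 * R - s v, fun _ => by linarith, fun v => by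
      have := (hK v).2
      linarith, ?_⟩
  intro v w hvw
  rw [h v w hvw]
  have cv : 0 ≤ c v w := c_nonneg v w
  have cdv : c v w ≤ dep v := c_dep v w
  have cdw : c v w ≤ dep w := by rw [c_comm]; exact c_dep w v
  have cv' : (0 : ℝ) ≤ c v w := by exact_mod_cast cv
  have cdv' : (c v w : ℝ) ≤ dep v := by exact_mod_cast cdv
  have cdw' : (c v w : ℝ) ≤ dep w := by exact_mod_cast cdw
  have kv := (hK v).1
  have kw := (hK w).1
  have hBc : B.c v w = (c v w : ℝ) := by
    show (if v = w then Λ else min Λ (c v w : ℝ)) = _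
    rw [if_neg hvw]
    exact min_eq_right (by linarith)
  have hBΛ : B.Λ = Λ := rfl
  -- distances
  have dvw : dist (B.pr (B.pt v (dep v : ℝ))) (B.pr (B.pt w (dep w : ℝ))) =
      dep v + dep w - 2 * c v w := by
    rw [B.dist_pr, B.dist_cross v w (m := (c v w : ℝ)) (by linarith) (by rw [hBΛ]; linarith)
      (by linarith) (by rw [hBΛ]; linarith)]
    rw [hBc]
    exact min_eq_right (le_min cdv' cdw')
  set d : ℝ := dep v + dep w - 2 * c v w with hd
  have hd0 : 0 ≤ d := by linarith
  have hdR : d ≤ R := by linarith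
  set I := closedBall (B.pr (B.pt v (dep v : ℝ))) R ∩ closedBall (B.pr (B.pt w (dep w : ℝ))) R with hI
  have hp : B.pr (B.pt v (dep v + R - d)) ∈ I := by
    refine ⟨?_, ?_⟩
    · rw [mem_closedBall, B.dist_pr, B.dist_same v (by linarith) (by rw [hBΛ]; linarith)
        (by linarith) (by rw [hBΛ]; linarith), abs_of_nonneg (by linarith)]
      linarith
    · rw [mem_closedBall, B.dist_pr, B.dist_cross v w (m := (c v w : ℝ)) (by linarith)
        (by rw [hBΛ]; linarith) (by linarith) (by rw [hBΛ]; linarith)]
      · linarith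
      · rw [hBc]
        exact min_eq_right (le_min (by linarith) cdw')
  have hq : B.pr (B.pt w (dep w + R - d)) ∈ I := by
    refine ⟨?_, ?_⟩
    · rw [mem_closedBall, dist_comm, B.dist_pr, B.dist_cross v w (m := (c v w : ℝ)) (by linarith)
        (by rw [hBΛ]; linarith) (by linarith) (by rw [hBΛ]; linarith)]
      · linarith
      · rw [hBc]
        exact min_eq_right (le_min cdv' (by linarith))
    · rw [mem_closedBall, B.dist_pr, B.dist_same w (by linarith) (by rw [hBΛ]; linarith)
        (by linarith) (by rw [hBΛ]; linarith), abs_of_nonneg (by linarith)]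
      linarith
  have hpq : dist (B.pr (B.pt v (dep v + R - d))) (B.pr (B.pt w (dep w + R - d))) = 2 * R - d := by
    rw [B.dist_pr, B.dist_cross v w (m := (c v w : ℝ)) (by linarith)
        (by rw [hBΛ]; linarith) (by linarith) (by rw [hBΛ]; linarith)]
    · linarith
    · rw [hBc]
      exact min_eq_right (le_min (by linarith) (by linarith))
  have hdiam : Metric.diam I = 2 * R - d := by
    apply le_antisymm
    · refine Metric.diam_le_of_forall_dist_le (by linarith) fun x hx y hy => ?_
      have x1 := mem_closedBall.1 hx.1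
      have x2 := mem_closedBall.1 hx.2
      have y1 := mem_closedBall.1 hy.1
      have y2 := mem_closedBall.1 hy.2
      have h4 := B.isEmbeddedTree.fourPoint x y (B.pr (B.pt v (dep v : ℝ))) (B.pr (B.pt w (dep w : ℝ)))
      rw [dvw] at h4
      rcases le_max_iff.1 h4 with h4 | h4 <;> linarith
    · rw [← hpq]
      exact Metric.dist_le_diam_of_mem (isBounded_closedBall.subset inter_subset_left) hp hq
  rw [hdiam]
  have e1 : min (2 * R - (s v : ℝ)) (2 * R - s w) = 2 * R - max (s v : ℝ) (s w) := by
    rw [← min_sub_sub_left]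
  simp only [e1]
  constructor
  · intro hle
    refine ⟨⟨_, hp⟩, ?_⟩
    have : d ≤ max (s v : ℝ) (s w) := by
      rw [hd]
      exact_mod_cast hle
    linarith
  · rintro ⟨_, hle⟩
    have : d ≤ max (s v : ℝ) (s w) := by linarith
    rw [hd] at this
    exact_mod_cast this

end Pool.Agent.MP_5c36ef_lc
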