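import Pool.Agent.MP_5c36ef_lc.Geom
import Pool.Agent.MP_5c36ef_lc.Tree

/-!
# The graph of a system of betweenness constraints

The elements are `0, …, n-1`; `R k x` says that `x` is in the set `X_k`; the constraint of `k` is
that `X_k` lies on one side of `k`.
-/

namespace Pool.Agent.MP_5c36ef_lc

/-- the constraints are satisfied by an ordering -/
def Good (n : ℕ) (R : ℕ → ℕ → Bool) : Prop :=
  ∃ h : ℕ → ℕ, (∀ i < n, ∀ j < n, h i = h j → i = j) ∧
    ∀ k < n, (∀ x < n, R k x = true → h x < h k) ∨ (∀ x < n, R k x = true → h k < h x)

/-- adjacency between the gadget vertices of `k` (`a = n` or `a = n + 1`) and the others -/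
def half (n : ℕ) (R : ℕ → ℕ → Bool) (k a b : ℕ) : Bool :=
  (a == n && decide (b < n) && R k b) || (a == n + 1 && b == k) || (a == n && b == n + 1)

/-- adjacency -/
def adjN (n : ℕ) (R : ℕ → ℕ → Bool) (k a l b : ℕ) : Bool :=
  (decide (a < n) && decide (b < n) && a != b) ||
    (k == l && (half n R k a b || half n R k b a))

/-- adjacency of the vertices `k (n + 2) + a` -/
def adjU (n : ℕ) (R : ℕ → ℕ → Bool) (u v : ℕ) : Bool :=
  adjN n R (u / (n + 2)) (u % (n + 2)) (v / (n + 2)) (v % (n + 2))

theorem adjN_comm (n : ℕ) (R : ℕ → ℕ → Bool) (k a l b : ℕ) :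
    adjN n R k a l b = adjN n R l b k a := by
  unfold adjN
  by_cases h : k = l
  · subst h
    have e1 : (a != b) = (b != a) := by
      rw [bne_comm]
    rw [e1, Bool.or_comm (half n R k a b), Bool.and_comm (decide (a < n))]
  · have h1 : (k == l) = false := by simpa using h
    have h2 : (l == k) = false := by simpa using (Ne.symm h)
    rw [h1, h2]
    have e1 : (a != b) = (b != a) := by
      rw [bne_comm]
    rw [e1, Bool.and_comm (decide (a < n))]
    simp

theorem adjN_self (n : ℕ) (R : ℕ → ℕ → Bool) (k a : ℕ) (hk : k < n) : adjN n R k a k a = false := by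
  unfold adjN half
  simp only [bne_self_eq_false, Bool.and_false, Bool.false_or, beq_self_eq_true, Bool.true_and,
    Bool.or_self, Bool.or_eq_false_iff, Bool.and_eq_false_iff, beq_eq_false_iff_ne, ne_eq,
    decide_eq_false_iff_not, not_lt]
  refine ⟨⟨?_, ?_⟩, ?_⟩
  · left; by_cases h : a = n
    · right; omega
    · left; exact h
  · by_cases h : a = n + 1
    · right; omega
    · left; exact h
  · by_cases h : a = n + 1
    · left; omega
    · right; exact h

/-- the graph -/
def gr (n : ℕ) (R : ℕ → ℕ → Bool) : SimpleGraph (Fin (n * (n + 2))) where
  Adj u v := adjU n R u v = true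
  symm := ⟨fun u v h => by
    unfold adjU at *
    rw [adjN_comm]
    exact h⟩
  loopless := ⟨fun u h => by
    unfold adjU at h
    rw [adjN_self] at h
    · cases h
    · rw [Nat.div_lt_iff_lt_mul (by omega)]
      exact u.2⟩

variable {n : ℕ} {R : ℕ → ℕ → Bool}

/-- the vertex `k (n + 2) + a` -/
def vx (n : ℕ) (k a : ℕ) (hk : k < n) (ha : a < n + 2) : Fin (n * (n + 2)) :=
  ⟨k * (n + 2) + a, by
    calc k * (n + 2) + a < k * (n + 2) + (n + 2) := by omega
      _ = (k + 1) * (n + 2) := by ring
      _ ≤ n * (n + 2) := Nat.mul_le_mul_right _ hk⟩

theorem gr_adj (k a l b : ℕ) (hk : k < n) (ha : a < n + 2) (hl : l < n) (hb : b < n + 2) :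
    (gr n R).Adj (vx n k a hk ha) (vx n l b hl hb) ↔ adjN n R k a l b = true := by
  show adjU n R (k * (n + 2) + a) (l * (n + 2) + b) = true ↔ _
  unfold adjU
  have e1 : (k * (n + 2) + a) / (n + 2) = k := by
    rw [mul_comm, Nat.mul_add_div (by omega), Nat.div_eq_of_lt ha, add_zero]
  have e2 : (k * (n + 2) + a) % (n + 2) = a := by
    rw [mul_comm, Nat.mul_add_mod, Nat.mod_eq_of_lt ha]
  have e3 : (l * (n + 2) + b) / (n + 2) = l := by
    rw [mul_comm, Nat.mul_add_div (by omega), Nat.div_eq_of_lt hb, add_zero]
  have e4 : (l * (n + 2) + b) % (n + 2) = b := by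
    rw [mul_comm, Nat.mul_add_mod, Nat.mod_eq_of_lt hb]
  rw [e1, e2, e3, e4]

theorem vx_ne {k a l b : ℕ} (hk : k < n) (ha : a < n + 2) (hl : l < n) (hb : b < n + 2)
    (h : k ≠ l ∨ a ≠ b) : vx n k a hk ha ≠ vx n l b hl hb := by
  intro he
  have h1 : k * (n + 2) + a = l * (n + 2) + b := congrArg Fin.val he
  have e1 : (k * (n + 2) + a) / (n + 2) = k := by
    rw [mul_comm, Nat.mul_add_div (by omega), Nat.div_eq_of_lt ha, add_zero]
  have e3 : (l * (n + 2) + b) / (n + 2) = l := by
    rw [mul_comm, Nat.mul_add_div (by omega), Nat.div_eq_of_lt hb, add_zero]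
  have h2 : k = l := by rw [← e1, h1, e3]
  subst h2
  rcases h with h | h
  · exact h rfl
  · omega

/-- soundness of the reduction -/
theorem good_of_isNeST (hn : 2 ≤ n) (hR : ∀ k, R k k = false) (h : IsNeST (gr n R)) :
    Good n R := by
  obtain ⟨κ, hκ⟩ := exists_keys _ h
  -- keys of element copies
  have hE : ∀ a b, a < n → b < n → a ≠ b → ∀ k l, adjN n R k a l b = true := by
    intro a b ha hb hab k l
    unfold adjN
    simp [ha, hb, hab]
  have hS : ∀ a, a < n → ∀ k l, k ≠ l → ¬ adjN n R k a l a = true := by
    intro a ha k l hkl
    unfold adjN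
    simp [hkl]
  let K : ∀ k a, k < n → a < n → ℝ ×ₗ ℕ := fun k a hk ha => κ (vx n k a hk (by omega))
  have hC : ∀ a b (ha : a < n) (hb : b < n), a ≠ b → ∀ k k' l l' (hk : k < n) (hk' : k' < n)
      (hl : l < n) (hl' : l' < n), k ≠ k' → l ≠ l' →
      (K k a hk ha < K l b hl hb ∧ K k a hk ha < K l' b hl' hb ∧
        K k' a hk' ha < K l b hl hb ∧ K k' a hk' ha < K l' b hl' hb) ∨
      (K l b hl hb < K k a hk ha ∧ K l b hl hb < K k' a hk' ha ∧
        K l' b hl' hb < K k a hk ha ∧ K l' b hl' hb < K k' a hk' ha) := by
    intro a b ha hb hab k k' l l' hk hk' hl hl' hkk hll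
    refine hκ (vx n k a hk (by omega)) (vx n l b hl (by omega)) (vx n k' a hk' (by omega))
      (vx n l' b hl' (by omega)) ?_ ?_ ?_ ?_ ?_ ?_ ?_ ?_
    · rw [gr_adj]; exact hE a b ha hb hab _ _
    · rw [gr_adj]; exact hE b a hb ha hab.symm _ _
    · rw [gr_adj]; exact hE a b ha hb hab _ _
    · rw [gr_adj]; exact hE b a hb ha hab.symm _ _
    · rw [gr_adj]; exact hS a ha _ _ hkk
    · rw [gr_adj]; exact hS b hb _ _ hll
    · exact vx_ne _ _ _ _ (Or.inl hkk)
    · exact vx_ne _ _ _ _ (Or.inl hll)
  have hother : ∀ k, k < n → ∃ k', k' < n ∧ k ≠ k' := by
    intro k hk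
    by_cases h0 : k = 0
    · exact ⟨1, by omega, by omega⟩
    · exact ⟨0, by omega, h0⟩
  -- the order does not depend on the copies
  have hP : ∀ a b (ha : a < n) (hb : b < n), a ≠ b → ∀ k l k' l' (hk : k < n) (hl : l < n)
      (hk' : k' < n) (hl' : l' < n), K k a hk ha < K l b hl hb → K k' a hk' ha < K l' b hl' hb := by
    intro a b ha hb hab k l k' l' hk hl hk' hl' hlt
    -- change the first index to something different from k, and the second too
    have step : ∀ k k'' l l'' (hk : k < n) (hk'' : k'' < n) (hl : l < n) (hl'' : l'' < n),
        k ≠ k'' → l ≠ l'' → K k a hk ha < K l b hl hb →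
        K k a hk ha < K l'' b hl'' hb ∧ K k'' a hk'' ha < K l b hl hb ∧
          K k'' a hk'' ha < K l'' b hl'' hb := by
      intro k k'' l l'' hk hk'' hl hl'' h1 h2 h3
      rcases hC a b ha hb hab k k'' l l'' hk hk'' hl hl'' h1 h2 with h | h
      · exact ⟨h.2.1, h.2.2.1, h.2.2.2⟩
      · exact absurd h3 (not_lt.2 h.1.le)
    obtain ⟨k₂, hk₂, hkk₂⟩ := hother k hk
    obtain ⟨l₂, hl₂, hll₂⟩ := hother l hl
    have h1 : K k' a hk' ha < K l b hl hb := by
      by_cases hkk : k = k'
      · subst hkk; exact hlt
      · exact (step k k' l l₂ hk hk' hl hl₂ hkk hll₂ hlt).2.1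
    obtain ⟨k₃, hk₃, hkk₃⟩ := hother k' hk'
    by_cases hll : l = l'
    · subst hll; exact h1
    · exact (step k' k₃ l l' hk' hk₃ hl hl' hkk₃ hll h1).1
  have h0 : 0 < n := by omega
  have htot : ∀ a b (ha : a < n) (hb : b < n), a ≠ b →
      K 0 a h0 ha < K 0 b h0 hb ∨ K 0 b h0 hb < K 0 a h0 ha := by
    intro a b ha hb hab
    rcases hC a b ha hb hab 0 1 0 1 h0 (by omega) h0 (by omega) (by omega) (by omega) with h | h
    · exact Or.inl h.1
    · exact Or.inr h.1
  -- the ranks
  classical
  let E : ℕ → ℝ ×ₗ ℕ := fun a => if ha : a < n then K 0 a h0 ha else toLex (0, 0)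
  have hEa : ∀ a (ha : a < n), E a = K 0 a h0 ha := fun a ha => dif_pos ha
  let r : ℕ → ℕ := fun a => ((Finset.range n).filter fun b => E b < E a).card
  have hr : ∀ a b, a < n → b < n → E a < E b → r a < r b := by
    intro a b ha hb hab
    apply Finset.card_lt_card
    rw [Finset.ssubset_iff_of_subset]
    · exact ⟨a, by simp [ha, hab], by simp⟩
    · intro x hx
      simp only [Finset.mem_filter, Finset.mem_range] at hx ⊢
      exact ⟨hx.1, hx.2.trans hab⟩
  refine ⟨r, ?_, ?_⟩
  · intro i hi j hj hij
    by_contra hne
    rcases htot i j hi hj hne with h | h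
    · have := hr i j hi hj (by rw [hEa i hi, hEa j hj]; exact h)
      omega
    · have := hr j i hj hi (by rw [hEa i hi, hEa j hj]; exact h)
      omega
  · intro k hk
    -- the gadget
    have gad : ∀ x (hx : x < n), R k x = true → x ≠ k ∧
        ((κ (vx n k n hk (by omega)) < κ (vx n k (n + 1) hk (by omega)) → K k k hk hk < K k x hk hx)
        ∧ (¬ κ (vx n k n hk (by omega)) < κ (vx n k (n + 1) hk (by omega)) →
          K k x hk hx < K k k hk hk)) := by
      intro x hx hRx
      have hxk : x ≠ k := by
        rintro rfl
        rw [hR] at hRx
        cases hRx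
      refine ⟨hxk, ?_⟩
      have c := hκ (vx n k n hk (by omega)) (vx n k x hk (by omega)) (vx n k k hk (by omega))
        (vx n k (n + 1) hk (by omega)) ?_ ?_ ?_ ?_ ?_ ?_ ?_ ?_
      · rcases c with ⟨c1, c2, c3, c4⟩ | ⟨c1, c2, c3, c4⟩
        · exact ⟨fun _ => c3, fun h => absurd c2 h⟩
        · exact ⟨fun h => absurd h (not_lt.2 c3.le), fun _ => c2⟩
      · rw [gr_adj]
        simp [adjN, half, hRx, hx]
      · rw [gr_adj]; exact hE x k hx hk hxk _ _
      · rw [gr_adj]
        simp [adjN, half]
      · rw [gr_adj]
        simp [adjN, half]
      · rw [gr_adj]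
        have h1 : ¬ k = n + 1 := by omega
        simp only [adjN, half, hR]
        simp
        omega
      · rw [gr_adj]
        have h1 : ¬ x = n + 1 := by omega
        have h2 : ¬ x = n := by omega
        simp [adjN, half, h1, h2, hxk]
      · exact vx_ne _ _ _ _ (Or.inr (by omega))
      · exact vx_ne _ _ _ _ (Or.inr (by omega))
    by_cases hcase : κ (vx n k n hk (by omega)) < κ (vx n k (n + 1) hk (by omega))
    · right
      intro x hx hRx
      obtain ⟨hxk, g1, _⟩ := gad x hx hRx
      apply hr k x hk hx
      rw [hEa k hk, hEa x hx]
      exact hP k x hk hx hxk.symm k k 0 0 hk hk h0 h0 (g1 hcase)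
    · left
      intro x hx hRx
      obtain ⟨hxk, _, g2⟩ := gad x hx hRx
      apply hr x k hx hk
      rw [hEa k hk, hEa x hx]
      exact hP x k hx hk hxk k k 0 0 hk hk h0 h0 (g2 hcase)

/-! ### completeness -/

section complete

variable (n R) (h : ℕ → ℕ) (H : ℕ)

open Classical in
/-- case 1: the set `X_k` lies above `k` -/
noncomputable def up (k : ℕ) : Bool := decide (∀ x < n, R k x = true → h k < h x)

noncomputable def z (k : ℕ) : ℕ := H + 2 * h k + (if up n R h k = true then 1 else 0)

/-- is the gadget vertex `a` of `k` a short one -/
noncomputable def isL (k a : ℕ) : Bool := (a == n) == up n R h k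

noncomputable def depN (k a : ℕ) : ℕ :=
  if a < n then H + 2 * h a + 1 else if isL n R h k a = true then z n R h H k + 2 * H else 8 * H

noncomputable def sN (k a : ℕ) : ℕ :=
  if a < n then 2 * H + 4 * h a + 1 else if isL n R h k a = true then 0 else 6 * H + z n R h H k

def inn (k a : ℕ) : Bool := decide (n ≤ a) || a == k || R k a

def cN (k a l b : ℕ) : ℕ :=
  if (k == l && inn n R k a && inn n R l b) = true then
    (if n ≤ a ∧ n ≤ b then 2 * H else H) else 0

theorem cN_comm (k a l b : ℕ) : cN n R H k a l b = cN n R H l b k a := by
  unfold cN
  by_cases hkl : k = l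
  · subst hkl
    simp only [beq_self_eq_true, Bool.true_and]
    have e : (inn n R k a && inn n R k b) = (inn n R k b && inn n R k a) := Bool.and_comm _ _
    rw [e]
    have e2 : (n ≤ a ∧ n ≤ b) ↔ (n ≤ b ∧ n ≤ a) := and_comm
    simp only [e2]
  · have h1 : (k == l) = false := by simpa using hkl
    have h2 : (l == k) = false := by simpa using (Ne.symm hkl)
    simp [h1, h2]

end complete

theorem adjN_iff_dep (h : ℕ → ℕ) (H : ℕ) (hH : ∀ i < n, h i < H)
    (hinj : ∀ i < n, ∀ j < n, h i = h j → i = j) (hR : ∀ k, R k k = false)
    (hgood : ∀ k < n, (∀ x < n, R k x = true → h x < h k) ∨ (∀ x < n, R k x = true → h k < h x))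
    (k a l b : ℕ) (hk : k < n) (ha : a < n + 2) (hl : l < n) (hb : b < n + 2)
    (hne : ¬ (k = l ∧ a = b)) :
    adjN n R k a l b = true ↔ depN n R h H k a + depN n R h H l b ≤
      2 * cN n R H k a l b + max (sN n R h H k a) (sN n R h H l b) := by
  have up1 : ∀ k < n, up n R h k = true → ∀ x < n, R k x = true → h k < h x := by
    intro k hk hu
    simpa [up] using hu
  have up0 : ∀ k < n, up n R h k = false → ∀ x < n, R k x = true → h x < h k := by
    intro k hk hu
    rcases hgood k hk with h1 | h1
    · exact h1
    · exfalso
      have : up n R h k = true := by simpa [up] using h1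
      rw [this] at hu
      cases hu
  have hHk := hH k hk
  have hHl := hH l hl
  -- reduce to `a ≤ b`
  wlog hab : a ≤ b generalizing k a l b
  · have h1 := this l b k a hl hb hk ha (fun h => hne ⟨h.1.symm, h.2.symm⟩) hHl hHk (by omega)
    rw [adjN_comm]
    refine Iff.trans h1 ?_
    rw [add_comm (depN n R h H l b), max_comm (sN n R h H l b), cN_comm]
  have hzk : z n R h H k ≤ H + 2 * h k + 1 := by unfold z; split_ifs <;> omega
  have hzl : z n R h H l ≤ H + 2 * h l + 1 := by unfold z; split_ifs <;> omega
  have hzk' : H + 2 * h k ≤ z n R h H k := by unfold z; split_ifs <;> omega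
  have hzl' : H + 2 * h l ≤ z n R h H l := by unfold z; split_ifs <;> omega
  by_cases ha1 : a < n
  · have hHa := hH a ha1
    have dk : depN n R h H k a = H + 2 * h a + 1 := by unfold depN; rw [if_pos ha1]
    have sk : sN n R h H k a = 2 * H + 4 * h a + 1 := by unfold sN; rw [if_pos ha1]
    rw [dk, sk]
    by_cases hb1 : b < n
    · have hHb := hH b hb1
      have dl : depN n R h H l b = H + 2 * h b + 1 := by unfold depN; rw [if_pos hb1]
      have sl : sN n R h H l b = 2 * H + 4 * h b + 1 := by unfold sN; rw [if_pos hb1]
      rw [dl, sl]
      by_cases hab' : a = b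
      · subst hab'
        have hkl : ¬ k = l := fun h => hne ⟨h, rfl⟩
        have e1 : adjN n R k a l a = false := by unfold adjN; simp [hkl]
        have e2 : cN n R H k a l a = 0 := by unfold cN; simp [hkl]
        rw [e1, e2]
        simp
        omega
      · have e1 : adjN n R k a l b = true := by unfold adjN; simp [ha1, hb1, hab']
        rw [e1]
        simp only [true_iff]
        have : h a ≠ h b := fun e => hab' (hinj a ha1 b hb1 e)
        have : 2 * H + 2 * h a + 2 * h b + 2 ≤ max (2 * H + 4 * h a + 1) (2 * H + 4 * h b + 1) := by
          rcases Nat.lt_or_gt_of_ne this with h1 | h1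
          · exact le_max_of_le_right (by omega)
          · exact le_max_of_le_left (by omega)
        omega
    · -- an element and a gadget vertex
      by_cases hkl : k = l
      · subst hkl
        by_cases hin : inn n R k a = true
        · have ec : cN n R H k a k b = H := by
            unfold cN
            have : inn n R k b = true := by unfold inn; simp; omega
            rw [hin, this]
            simp; omega
          rw [ec]
          by_cases hak : a = k
          · subst hak
            by_cases hbn : b = n
            · -- `g`, nonadjacent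
              subst hbn
              have e1 : adjN b R a a a b = false := by
                unfold adjN half
                simp [hR]
                omega
              rw [e1]
              cases hu : up b R h a
              · have el : isL b R h a b = false := by unfold isL; simp [hu]
                unfold depN sN z
                simp [hu, el]
                omega
              · have el : isL b R h a b = true := by unfold isL; simp [hu]
                unfold depN sN z
                simp [hu, el]
                omega
            · have hbn' : b = n + 1 := by omega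
              subst hbn'
              have e1 : adjN n R a a a (n + 1) = true := by
                unfold adjN half
                simp
              rw [e1]
              cases hu : up n R h a
              · have el : isL n R h a (n + 1) = true := by unfold isL; simp [hu]
                unfold depN sN z
                simp [hu, el]
                omega
              · have el : isL n R h a (n + 1) = false := by unfold isL; simp [hu]
                unfold depN sN z
                simp [hu, el]
                omega
          · -- `R k a`
            have hRa : R k a = true := by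
              unfold inn at hin
              simp only [Bool.or_eq_true, decide_eq_true_eq, beq_iff_eq] at hin
              rcases hin with (hin | hin) | hin
              · omega
              · exact absurd hin hak
              · exact hin
            by_cases hbn : b = n
            · subst hbn
              have e1 : adjN b R k a k b = true := by
                unfold adjN half
                simp [hRa, ha1]
              rw [e1]
              cases hu : up b R h k
              · have el : isL b R h k b = false := by unfold isL; simp [hu]
                have := up0 k hk hu a ha1 hRa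
                unfold depN sN z
                simp [hu, el]
                omega
              · have el : isL b R h k b = true := by unfold isL; simp [hu]
                have := up1 k hk hu a ha1 hRa
                unfold depN sN z
                simp [hu, el]
                omega
            · have hbn' : b = n + 1 := by omega
              subst hbn'
              have e1 : adjN n R k a k (n + 1) = false := by
                unfold adjN half
                simp [hak]
                omega
              rw [e1]
              cases hu : up n R h k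
              · have el : isL n R h k (n + 1) = true := by unfold isL; simp [hu]
                have := up0 k hk hu a ha1 hRa
                unfold depN sN z
                simp [hu, el]
                omega
              · have el : isL n R h k (n + 1) = false := by unfold isL; simp [hu]
                have := up1 k hk hu a ha1 hRa
                unfold depN sN z
                simp [hu, el]
                omega
        · -- not in the gadget
          have hin' : inn n R k a = false := by simpa using hin
          have ec : cN n R H k a k b = 0 := by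
            unfold cN
            rw [hin']
            simp
          have hak : ¬ a = k := by
            intro e; apply hin; unfold inn; simp [e]
          have hRa : R k a = false := by
            by_contra e; apply hin; unfold inn; simp at e; simp [e]
          have e1 : adjN n R k a k b = false := by
            unfold adjN half
            simp [hak, hRa, hb1]
            omega
          rw [ec, e1]
          by_cases hL : isL n R h k b = true
          · unfold depN sN
            simp only [hb1, if_false, hL, if_true]
            simp
            omega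
          · unfold depN sN
            simp only [hb1, if_false, hL]
            simp
            omega
      · have ec : cN n R H k a l b = 0 := by
          unfold cN
          simp [hkl]
        have e1 : adjN n R k a l b = false := by
          unfold adjN
          simp [hkl, hb1]
        rw [ec, e1]
        by_cases hL : isL n R h l b = true
        · unfold depN sN
          simp only [hb1, if_false, hL, if_true]
          simp
          omega
        · unfold depN sN
          simp only [hb1, if_false, hL]
          simp
          omega
  · -- two gadget vertices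
    have hb1 : ¬ b < n := by omega
    by_cases hkl : k = l
    · subst hkl
      have ha2 : a = n := by omega
      have hb2 : b = n + 1 := by omega
      subst ha2
      subst hb2
      have e1 : adjN a R k a k (a + 1) = true := by
        unfold adjN half
        simp
      have ec : cN a R H k a k (a + 1) = 2 * H := by
        unfold cN inn
        simp
      rw [e1, ec]
      cases hu : up a R h k
      · have el : isL a R h k a = false := by unfold isL; simp [hu]
        have el' : isL a R h k (a + 1) = true := by unfold isL; simp [hu]
        unfold depN sN z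
        simp [hu, el, el']
        omega
      · have el : isL a R h k a = true := by unfold isL; simp [hu]
        have el' : isL a R h k (a + 1) = false := by unfold isL; simp [hu]
        unfold depN sN z
        simp [hu, el, el']
        omega
    · have ec : cN n R H k a l b = 0 := by
        unfold cN
        simp [hkl]
      have e1 : adjN n R k a l b = false := by
        unfold adjN
        simp [hkl, ha1]
      rw [ec, e1]
      by_cases hL : isL n R h l b = true <;> by_cases hL' : isL n R h k a = true
      all_goals
        unfold depN sN
        simp only [ha1, hb1, if_false, hL, hL', if_true]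
        simp
        omega

/-- completeness of the reduction -/
theorem isNeST_of_good (hR : ∀ k, R k k = false) (hg : Good n R) : IsNeST (gr n R) := by
  obtain ⟨h, hinj, hgood⟩ := hg
  obtain ⟨H, hH⟩ : ∃ H, ∀ i < n, h i < H := by
    refine ⟨((Finset.range n).sup h) + 1, fun i hi => ?_⟩
    have : h i ≤ (Finset.range n).sup h := Finset.le_sup (Finset.mem_range.2 hi)
    omega
  have hdiv : ∀ u : Fin (n * (n + 2)), (u : ℕ) / (n + 2) < n := fun u => by
    rw [Nat.div_lt_iff_lt_mul (by omega)]
    exact u.2
  have hmod : ∀ u : Fin (n * (n + 2)), (u : ℕ) % (n + 2) < n + 2 := fun u =>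
    Nat.mod_lt _ (by omega)
  have cases_cN : ∀ k a l b, cN n R H k a l b = 0 ∨ (k = l ∧ inn n R k a = true ∧
      inn n R l b = true ∧ cN n R H k a l b = if n ≤ a ∧ n ≤ b then 2 * H else H) := by
    intro k a l b
    unfold cN
    by_cases hc : (k == l && inn n R k a && inn n R l b) = true
    · right
      rw [if_pos hc]
      simp only [Bool.and_eq_true, beq_iff_eq] at hc
      exact ⟨hc.1.1, hc.1.2, hc.2, rfl⟩
    · left
      rw [if_neg hc]
  refine isNeST_of_depths (gr n R)
    (fun u v => (cN n R H ((u : ℕ) / (n + 2)) ((u : ℕ) % (n + 2)) ((v : ℕ) / (n + 2))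
      ((v : ℕ) % (n + 2)) : ℕ))
    (fun u => (depN n R h H ((u : ℕ) / (n + 2)) ((u : ℕ) % (n + 2)) : ℕ))
    (fun u => (sN n R h H ((u : ℕ) / (n + 2)) ((u : ℕ) % (n + 2)) : ℕ)) ?_ ?_ ?_ ?_ ?_
  · intro u v
    positivity
  · intro u v
    norm_cast
    exact cN_comm _ _ _ _ _ _ _
  · intro u v w
    norm_cast
    generalize (u : ℕ) / (n + 2) = k
    generalize (u : ℕ) % (n + 2) = a
    generalize (v : ℕ) / (n + 2) = l
    generalize (v : ℕ) % (n + 2) = b
    generalize (w : ℕ) / (n + 2) = m
    generalize (w : ℕ) % (n + 2) = c
    rcases cases_cN k a l b with h1 | ⟨e1, e2, e3, e4⟩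
    · rw [h1]; simp
    · rcases cases_cN l b m c with h1 | ⟨f1, f2, f3, f4⟩
      · rw [h1]; simp
      · subst e1
        subst f1
        have : cN n R H k a k c = if n ≤ a ∧ n ≤ c then 2 * H else H := by
          unfold cN
          rw [e2, f3]
          simp
        rw [this, e4, f4]
        split_ifs <;> simp <;> omega
  · intro u v
    norm_cast
    have h1 := hdiv u
    have h2 := hmod u
    generalize (u : ℕ) / (n + 2) = k at *
    generalize (u : ℕ) % (n + 2) = a at *
    generalize (v : ℕ) / (n + 2) = l at *
    generalize (v : ℕ) % (n + 2) = b at *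
    rcases cases_cN k a l b with h3 | ⟨e1, e2, e3, e4⟩
    · rw [h3]; simp
    · rw [e4]
      unfold depN
      split_ifs <;> omega
  · intro u v huv
    have h1 := hdiv u
    have h2 := hmod u
    have h3 := hdiv v
    have h4 := hmod v
    have hne : ¬ ((u : ℕ) / (n + 2) = (v : ℕ) / (n + 2) ∧
        (u : ℕ) % (n + 2) = (v : ℕ) % (n + 2)) := by
      rintro ⟨e1, e2⟩
      apply huv
      apply Fin.ext
      rw [← Nat.div_add_mod (u : ℕ) (n + 2), e1, e2, Nat.div_add_mod]
    show adjU n R u v = true ↔ _
    unfold adjU
    rw [adjN_iff_dep h H hH hinj hR hgood _ _ _ _ h1 h2 h3 h4 hne]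
    generalize depN n R h H _ _ = d1
    generalize depN n R h H _ _ = d2
    generalize sN n R h H _ _ = s1
    generalize sN n R h H _ _ = s2
    generalize cN n R H _ _ _ _ = c
    omega

/-- the reduction is correct -/
theorem isNeST_iff_good (hn : 2 ≤ n) (hR : ∀ k, R k k = false) :
    IsNeST (gr n R) ↔ Good n R :=
  ⟨good_of_isNeST hn hR, isNeST_of_good hR⟩

end Pool.Agent.MP_5c36ef_lc
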