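import Pool.Agent.MP_5c36ef_lc.Reduce

/-!
# NP-hardness of the recognition of NeST graphs
-/

namespace Pool.Agent.MP_5c36ef_lc

open Pool.NPC

/-! ### encoding -/

theorem length_encodeGraph {n : ℕ} (G : SimpleGraph (Fin n)) :
    (encodeGraph G).length = n + 1 + n * n := by
  simp [encodeGraph]
  omega

theorem encodeGraph_mem_iff {n : ℕ} (G : SimpleGraph (Fin n)) :
    encodeGraph G ∈ nestProblem ↔ IsNeST G := by
  classical
  constructor
  · rintro ⟨n', G', h1, h2⟩
    have hn : n = n' := by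
      have := congrArg List.length h1
      rw [length_encodeGraph, length_encodeGraph] at this
      rcases lt_trichotomy n n' with hlt | heq | hgt
      · have := Nat.mul_self_lt_mul_self hlt
        omega
      · exact heq
      · have := Nat.mul_self_lt_mul_self hgt
        omega
    subst hn
    have hG : G = G' := by
      unfold encodeGraph at h1
      have h3 := List.append_cancel_left h1
      simp only [List.cons.injEq, true_and] at h3
      have h4 := List.ofFn_injective h3
      ext u v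
      have h5 := congrFun h4 (finProdFinEquiv (u, v))
      have e1 : (finProdFinEquiv (u, v)).divNat = u :=
        congrArg Prod.fst (finProdFinEquiv.symm_apply_apply (u, v))
      have e2 : (finProdFinEquiv (u, v)).modNat = v :=
        congrArg Prod.snd (finProdFinEquiv.symm_apply_apply (u, v))
      simp only [e1, e2] at h5
      simpa using h5
    rw [hG]
    exact h2
  · intro h
    exact ⟨n, G, rfl, h⟩

section

variable {α : Type} [Enc α]

/-- adjacency matrix strings of polynomial time families are polynomial time -/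
theorem pt_encodeGraph {n : α → ℕ} {A : α × (ℕ × ℕ) → Bool} (G : ∀ a, SimpleGraph (Fin (n a)))
    (hn : PT n) (hA : PT A) (h : ∀ a (u v : Fin (n a)), (G a).Adj u v ↔ A (a, ((u : ℕ), (v : ℕ))) = true) :
    PT (fun a => encodeGraph (G a)) := by
  classical
  have h1 : PT (fun a => List.replicate (n a) true ++ (false ::
      (List.range (n a * n a)).flatMap fun i => [A (a, (i / n a, i % n a))])) := by
    refine PT.append (PT.replicate hn) (PT.cons (PT.const false)
      (PT.flatMap (g := fun x => [A (x.1, (x.2 / n x.1, x.2 % n x.1))]) (PT.mul hn hn) ?_))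
    have ha : PT (fun x : α × ℕ => x.1) := PT.fst
    have hi : PT (fun x : α × ℕ => x.2) := PT.snd
    have hna := PT.comp hn ha
    exact PT.cons (PT.comp hA (PT.pair ha (PT.pair (PT.div hi hna) (PT.mod hi hna))))
      (PT.const [])
  refine h1.congr fun a => ?_
  unfold Pool.Agent.MP_5c36ef_lc.encodeGraph
  congr 2
  rw [← List.map_eq_flatMap]
  apply List.ext_getElem
  · simp
  · intro i h1 h2
    simp only [List.getElem_map, List.getElem_range, List.getElem_ofFn]
    have h3 := h a (Fin.divNat (m := n a) (n := n a) ⟨i, by simpa using h1⟩)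
      (Fin.modNat (m := n a) (n := n a) ⟨i, by simpa using h1⟩)
    rw [Bool.eq_iff_iff, decide_eq_true_eq, h3]
    simp [Fin.divNat, Fin.modNat]

theorem pt_rel (m k x : α → ℕ) (l : α → ℕ → ℕ → ℕ) (hm : PT m) (hk : PT k) (hx : PT x)
    (hl : ∀ f g : α → ℕ, PT f → PT g → PT (fun a => l a (f a) (g a))) :
    PT (fun a => rel (m a) (l a) (k a) (x a)) := by
  have hlt : ∀ f g : α → ℕ, PT f → PT g → PT (fun a => lt' (m a) (l a) (f a) (g a)) := by
    intro f g hf hg
    unfold lt'
    exact PT.ite (PT.eq hg (PT.const 0)) hm (hl f _ hf (PT.pred hg))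
  have sub1 : ∀ f : α → ℕ, PT f → PT (fun a => (f a - m a - 1)) := fun f hf =>
    PT.pred (PT.sub hf hm)
  have d4 : ∀ f : α → ℕ, PT f → PT (fun a => (f a - m a - 1) / 4) := fun f hf =>
    PT.div (sub1 f hf) (PT.const 4)
  have m4 : ∀ f : α → ℕ, PT f → PT (fun a => (f a - m a - 1) % 4) := fun f hf =>
    PT.mod (sub1 f hf) (PT.const 4)
  unfold Pool.Agent.MP_5c36ef_lc.rel
  refine PT.and (PT.bne hx hk) (PT.ite (PT.le hk hm) ?_ ?_)
  · refine PT.or (PT.and (PT.lt hm hx) (PT.beq (hlt _ _ (d4 _ hx) (m4 _ hx)) hk)) ?_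
    exact PT.and (PT.and (PT.lt hk hm) (PT.lt hx hm))
      (PT.beq (PT.div hx (PT.const 2)) (PT.div hk (PT.const 2)))
  · refine PT.or (PT.beq hx (hlt _ _ (d4 _ hk) (m4 _ hk))) (PT.beq hx ?_)
    exact PT.add (PT.add (PT.add hm (PT.const 1)) (PT.mul (PT.const 4) (d4 _ hk)))
      (PT.mod (PT.add (m4 _ hk) (PT.const 3)) (PT.const 4))

theorem pt_half (n k a b : α → ℕ) (R : α → ℕ → ℕ → Bool) (hn : PT n) (hk : PT k) (ha : PT a)
    (hb : PT b) (hR : ∀ f g : α → ℕ, PT f → PT g → PT (fun s => R s (f s) (g s))) :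
    PT (fun s => half (n s) (R s) (k s) (a s) (b s)) := by
  unfold Pool.Agent.MP_5c36ef_lc.half
  have hn1 := PT.add hn (PT.const 1)
  exact PT.or (PT.or (PT.and (PT.and (PT.beq ha hn) (PT.lt hb hn)) (hR _ _ hk hb))
    (PT.and (PT.beq ha hn1) (PT.beq hb hk))) (PT.and (PT.beq ha hn) (PT.beq hb hn1))

theorem pt_adjU (n u v : α → ℕ) (R : α → ℕ → ℕ → Bool) (hn : PT n) (hu : PT u) (hv : PT v)
    (hR : ∀ f g : α → ℕ, PT f → PT g → PT (fun s => R s (f s) (g s))) :
    PT (fun s => adjU (n s) (R s) (u s) (v s)) := by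
  unfold Pool.Agent.MP_5c36ef_lc.adjU Pool.Agent.MP_5c36ef_lc.adjN
  have hn2 := PT.add hn (PT.const 2)
  have hk := PT.div hu hn2
  have ha := PT.mod hu hn2
  have hl := PT.div hv hn2
  have hb := PT.mod hv hn2
  exact PT.or (PT.and (PT.and (PT.lt ha hn) (PT.lt hb hn)) (PT.bne ha hb))
    (PT.and (PT.beq hk hl) (PT.or (pt_half _ _ _ _ R hn hk ha hb hR)
      (pt_half _ _ _ _ R hn hk hb ha hR)))

end

theorem gr_adj_iff (n : ℕ) (R : ℕ → ℕ → Bool) (u v : Fin (n * (n + 2))) :
    (gr n R).Adj u v ↔ adjU n R u v = true := Iff.rfl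

theorem pt_gr (m N : List Bool → ℕ) (lit : List Bool × (ℕ × ℕ) → ℕ) (hm : PT m) (hN : PT N)
    (hlit : PT lit) :
    PT (fun s => encodeGraph (gr (N s) (rel (m s) (fun c d => lit (s, (c, d)))))) := by
  have hs : PT (fun a : List Bool × (ℕ × ℕ) => a.1) := PT.fst
  have hu : PT (fun a : List Bool × (ℕ × ℕ) => a.2.1) := PT.fst' PT.snd
  have hv : PT (fun a : List Bool × (ℕ × ℕ) => a.2.2) := PT.snd' PT.snd
  have hNs : PT (fun a : List Bool × (ℕ × ℕ) => N a.1) := PT.comp hN hs
  have hms : PT (fun a : List Bool × (ℕ × ℕ) => m a.1) := PT.comp hm hs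
  have hR : ∀ f g : List Bool × (ℕ × ℕ) → ℕ, PT f → PT g →
      PT (fun a => rel (m a.1) (fun c d => lit (a.1, (c, d))) (f a) (g a)) := by
    intro f g hf hg
    refine pt_rel (fun a => m a.1) f g (fun a c d => lit (a.1, (c, d))) hms hf hg ?_
    intro f g hf hg
    exact PT.comp (f := fun a : List Bool × (ℕ × ℕ) => (a.1, (f a, g a))) hlit
      (PT.pair hs (PT.pair hf hg))
  have hA : PT (fun a : List Bool × (ℕ × ℕ) =>
      adjU (N a.1) (rel (m a.1) (fun c d => lit (a.1, (c, d)))) a.2.1 a.2.2) :=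
    pt_adjU (α := List Bool × (ℕ × ℕ)) (fun a => N a.1) (fun a => a.2.1) (fun a => a.2.2)
      (fun a => rel (m a.1) (fun c d => lit (a.1, (c, d)))) hNs hu hv hR
  have hV : PT (fun s => N s * (N s + 2)) := PT.mul hN (PT.add hN (PT.const 2))
  exact pt_encodeGraph (fun s => gr (N s) (rel (m s) (fun c d => lit (s, (c, d))))) hV hA
    (fun s u v => gr_adj_iff _ _ u v)

/-- the recognition problem for NeST graphs is NP-hard -/
theorem npHard_nestProblem : NPHard nestProblem := by
  intro B hB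
  obtain ⟨nv, nc, lit, hnv, hnc, hlit, hlt, hcorr⟩ := cookLevin B hB
  have hm : PT (fun s => 2 * (nv s + 1)) := PT.mul (PT.const 2) (PT.add hnv (PT.const 1))
  have hN : PT (fun s => nE (2 * (nv s + 1)) (nc s)) :=
    PT.add (PT.add hm (PT.const 1)) (PT.mul (PT.const 4) hnc)
  refine ⟨_, (pt_gr _ _ _ hm hN hlit).polyTime, fun s => ?_⟩
  rw [encodeGraph_mem_iff, hcorr s, isNeST_iff_good, good_iff_sat]
  · show 2 * (nv s + 1) % 2 = 0
    omega
  · intro c hc d
    have := hlt s c hc d
    show lit (s, (c, d)) < 2 * (nv s + 1)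
    omega
  · show 2 ≤ 2 * (nv s + 1) + 1 + 4 * nc s
    omega
  · intro k
    exact rel_self _ _ _

end Pool.Agent.MP_5c36ef_lc
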