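import Pool.Agent.MP_5c36ef_lc.Graph
import Pool.Agent.NPC.CookLevin

/-!
# 3-SAT and betweenness constraints

The elements are the literals `ℓ < m`, the element `m` (standing for false) and the elements
`m + 1 + 4 c + t` (`t < 4`) of the clauses `c`.
-/

namespace Pool.Agent.MP_5c36ef_lc

open Pool.NPC

/-- the literal compared with the element `t` of clause `c` -/
def lt' (m : ℕ) (lit : ℕ → ℕ → ℕ) (c t : ℕ) : ℕ := if t = 0 then m else lit c (t - 1)

/-- the sets `X_k` -/
def rel (m : ℕ) (lit : ℕ → ℕ → ℕ) (k x : ℕ) : Bool :=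
  x != k && (if k ≤ m then
    (decide (m < x) && lt' m lit ((x - m - 1) / 4) ((x - m - 1) % 4) == k) ||
      (decide (k < m) && decide (x < m) && x / 2 == k / 2)
  else
    x == lt' m lit ((k - m - 1) / 4) ((k - m - 1) % 4) ||
      x == m + 1 + 4 * ((k - m - 1) / 4) + ((k - m - 1) % 4 + 3) % 4)

theorem rel_self (m : ℕ) (lit : ℕ → ℕ → ℕ) (k : ℕ) : rel m lit k k = false := by
  unfold rel
  simp

/-- number of elements -/
def nE (m nc : ℕ) : ℕ := m + 1 + 4 * nc

variable {m nc : ℕ} {lit : ℕ → ℕ → ℕ}

theorem clause_div (c t : ℕ) (ht : t < 4) : (m + 1 + 4 * c + t - m - 1) / 4 = c := by omega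

theorem clause_mod (c t : ℕ) (ht : t < 4) : (m + 1 + 4 * c + t - m - 1) % 4 = t := by omega

theorem sat_of_good (hm : m % 2 = 0) (hlit : ∀ c < nc, ∀ d, lit c d < m)
    (h : Good (nE m nc) (rel m lit)) : Sat3 nc lit := by
  classical
  obtain ⟨h, -, hg⟩ := h
  set n := nE m nc with hn
  have hn' : n = m + 1 + 4 * nc := hn
  let β : ℕ → Bool := fun k => decide (∀ x < n, rel m lit k x = true → h k < h x)
  have hβ1 : ∀ k x, β k = true → x < n → rel m lit k x = true → h k < h x := by
    intro k x hk hx hr
    have : ∀ x < n, rel m lit k x = true → h k < h x := by simpa [β] using hk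
    exact this x hx hr
  have hβ0 : ∀ k x, k < n → β k = false → x < n → rel m lit k x = true → h x < h k := by
    intro k x hk hb hx hr
    rcases hg k hk with h1 | h1
    · exact h1 x hx hr
    · exfalso
      have : β k = true := by simpa [β] using h1
      rw [this] at hb
      cases hb
  -- complementary literals
  have hcomp : ∀ v, 2 * v < m → β (2 * v + 1) = !(β (2 * v)) := by
    intro v hv
    have r1 : rel m lit (2 * v) (2 * v + 1) = true := by
      unfold rel
      have h1 : 2 * v ≤ m := by omega
      have h2 : 2 * v < m := hv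
      have h3 : 2 * v + 1 < m := by omega
      have h4 : (2 * v + 1) / 2 = v := by omega
      simp [h1, h2, h3, h4]
    have r2 : rel m lit (2 * v + 1) (2 * v) = true := by
      unfold rel
      have h1 : 2 * v + 1 ≤ m := by omega
      have h2 : 2 * v < m := hv
      have h3 : 2 * v + 1 < m := by omega
      have h4 : (2 * v + 1) / 2 = v := by omega
      simp [h1, h2, h3, h4]
    have n1 : 2 * v < n := by omega
    have n2 : 2 * v + 1 < n := by omega
    cases h1 : β (2 * v) <;> cases h2 : β (2 * v + 1)
    · have := hβ0 _ _ n1 h1 n2 r1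
      have := hβ0 _ _ n2 h2 n1 r2
      omega
    · rfl
    · rfl
    · have := hβ1 _ _ h1 n2 r1
      have := hβ1 _ _ h2 n1 r2
      omega
  -- the elements of clauses
  have hclause : ∀ c < nc, ∀ t < 4,
      (β (lt' m lit c t) = true → h (m + 1 + 4 * c + (t + 3) % 4) < h (m + 1 + 4 * c + t)) ∧
      (β (lt' m lit c t) = false → h (m + 1 + 4 * c + t) < h (m + 1 + 4 * c + (t + 3) % 4)) := by
    intro c hc t ht
    set L := lt' m lit c t with hL
    have hLm : L ≤ m := by
      rw [hL]
      unfold lt'
      split_ifs
      · exact le_rfl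
      · exact (hlit c hc _).le
    have nk : m + 1 + 4 * c + t < n := by omega
    have nk' : m + 1 + 4 * c + (t + 3) % 4 < n := by omega
    have nL : L < n := by omega
    have e1 := clause_div (m := m) c t ht
    have e2 := clause_mod (m := m) c t ht
    have r1 : rel m lit (m + 1 + 4 * c + t) L = true := by
      unfold rel
      have h1 : ¬ (m + 1 + 4 * c + t ≤ m) := by omega
      have h2 : L ≠ m + 1 + 4 * c + t := by omega
      rw [e1, e2, ← hL]
      simp [h1, h2]
    have r2 : rel m lit (m + 1 + 4 * c + t) (m + 1 + 4 * c + (t + 3) % 4) = true := by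
      unfold rel
      have h1 : ¬ (m + 1 + 4 * c + t ≤ m) := by omega
      have h2 : m + 1 + 4 * c + (t + 3) % 4 ≠ m + 1 + 4 * c + t := by omega
      rw [e1, e2, if_neg h1]
      simp only [beq_self_eq_true, Bool.or_true, Bool.and_true, bne_iff_ne]
      exact h2
    have r3 : rel m lit L (m + 1 + 4 * c + t) = true := by
      unfold rel
      have h1 : m < m + 1 + 4 * c + t := by omega
      have h2 : m + 1 + 4 * c + t ≠ L := by omega
      rw [e1, e2, ← hL]
      simp [hLm, h1, h2]
    constructor
    · intro hb
      have k1 := hβ1 _ _ hb nk r3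
      rcases hg _ nk with h1 | h1
      · exact h1 _ nk' r2
      · have := h1 _ nL r1
        omega
    · intro hb
      have k1 := hβ0 _ _ nL hb nk r3
      rcases hg _ nk with h1 | h1
      · have := h1 _ nL r1
        omega
      · exact h1 _ nk' r2
  refine ⟨fun v => β (2 * v) != β m, fun c hc => ?_⟩
  by_contra hcon
  push Not at hcon
  -- all literals have the same sign as `m`
  have hsame : ∀ d < 3, β (lit c d) = β m := by
    intro d hd
    have h1 := hcon d hd
    have hl := hlit c hc d
    unfold litTrue at h1
    by_cases h2 : lit c d % 2 = 0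
    · rw [if_pos h2] at h1
      beta_reduce at h1
      have e : 2 * (lit c d / 2) = lit c d := by omega
      rw [e] at h1
      revert h1
      cases β (lit c d) <;> cases β m <;> simp
    · rw [if_neg h2] at h1
      beta_reduce at h1
      have e : 2 * (lit c d / 2) + 1 = lit c d := by omega
      have h3 := hcomp (lit c d / 2) (by omega)
      rw [e] at h3
      rw [h3]
      revert h1
      cases β (2 * (lit c d / 2)) <;> cases β m <;> simp
  have hall : ∀ t < 4, β (lt' m lit c t) = β m := by
    intro t ht
    unfold lt'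
    by_cases h0 : t = 0
    · rw [if_pos h0]
    · rw [if_neg h0]
      exact hsame (t - 1) (by omega)
  have c0 := hclause c hc 0 (by norm_num)
  have c1 := hclause c hc 1 (by norm_num)
  have c2 := hclause c hc 2 (by norm_num)
  have c3 := hclause c hc 3 (by norm_num)
  rw [hall 0 (by norm_num)] at c0
  rw [hall 1 (by norm_num)] at c1
  rw [hall 2 (by norm_num)] at c2
  rw [hall 3 (by norm_num)] at c3
  norm_num at c0 c1 c2 c3
  cases hb : β m
  · have := c0.2 hb
    have := c1.2 hb
    have := c2.2 hb
    have := c3.2 hb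
    omega
  · have := c0.1 hb
    have := c1.1 hb
    have := c2.1 hb
    have := c3.1 hb
    omega

/-! ### from an assignment to an ordering -/

def st (b : Bool) (w : ℕ) : ℕ := if b = true then w + 4 else w - 1

/-- positions of the four elements of a clause with truth values `b₀, b₁, b₂` -/
def wt (b₀ b₁ b₂ : Bool) (t : ℕ) : ℕ :=
  if t = 0 then 3 else if t = 1 then st b₀ 3 else if t = 2 then st b₁ (st b₀ 3)
  else st b₂ (st b₁ (st b₀ 3))

theorem wt_le : ∀ b₀ b₁ b₂ : Bool, ∀ t < 4, wt b₀ b₁ b₂ t ≤ 15 := by decide

theorem wt_inj : ∀ b₀ b₁ b₂ : Bool, (b₀ || b₁ || b₂) = true → ∀ t < 4, ∀ t' < 4,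
    wt b₀ b₁ b₂ t = wt b₀ b₁ b₂ t' → t = t' := by decide

theorem wt_zero : ∀ b₀ b₁ b₂ : Bool, (b₀ || b₁ || b₂) = true →
    wt b₀ b₁ b₂ 0 < wt b₀ b₁ b₂ 3 := by decide

theorem wt_one : ∀ b₀ b₁ b₂ : Bool, (b₀ || b₁ || b₂) = true →
    (b₀ = true → wt b₀ b₁ b₂ 0 < wt b₀ b₁ b₂ 1) ∧ (b₀ = false → wt b₀ b₁ b₂ 1 < wt b₀ b₁ b₂ 0) ∧
    (b₁ = true → wt b₀ b₁ b₂ 1 < wt b₀ b₁ b₂ 2) ∧ (b₁ = false → wt b₀ b₁ b₂ 2 < wt b₀ b₁ b₂ 1) ∧
    (b₂ = true → wt b₀ b₁ b₂ 2 < wt b₀ b₁ b₂ 3) ∧ (b₂ = false → wt b₀ b₁ b₂ 3 < wt b₀ b₁ b₂ 2) := by
  decide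

section

variable (m nc lit) (τ : ℕ → Bool)

/-- position of an element of a clause -/
def wc (c t : ℕ) : ℕ :=
  m + 16 * c + wt (litTrue τ (lit c 0)) (litTrue τ (lit c 1)) (litTrue τ (lit c 2)) t

/-- position of a literal or of `m` -/
def wl (i : ℕ) : ℕ := if i < m ∧ litTrue τ i = true then i else m + 16 * nc + i

/-- the ordering -/
def pos' (i : ℕ) : ℕ :=
  if i ≤ m then wl m nc τ i else wc m lit τ ((i - m - 1) / 4) ((i - m - 1) % 4)

end

theorem good_of_sat (hm : m % 2 = 0) (hlit : ∀ c < nc, ∀ d, lit c d < m) (h : Sat3 nc lit) :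
    Good (nE m nc) (rel m lit) := by
  obtain ⟨τ, hτ⟩ := h
  have hb : ∀ c < nc, (litTrue τ (lit c 0) || litTrue τ (lit c 1) || litTrue τ (lit c 2)) = true := by
    intro c hc
    obtain ⟨d, hd, h1⟩ := hτ c hc
    interval_cases d <;> simp [h1]
  have pc : ∀ c t, t < 4 → pos' m nc lit τ (m + 1 + 4 * c + t) = wc m lit τ c t := by
    intro c t ht
    unfold pos'
    rw [if_neg (by omega), clause_div c t ht, clause_mod c t ht]
  have pl : ∀ i ≤ m, pos' m nc lit τ i = wl m nc τ i := by
    intro i hi
    unfold pos'
    rw [if_pos hi]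
  have wc_lo : ∀ c t, m + 16 * c ≤ wc m lit τ c t := by
    intro c t
    unfold wc
    omega
  have wc_hi : ∀ c t, t < 4 → wc m lit τ c t ≤ m + 16 * c + 15 := by
    intro c t ht
    have := wt_le (litTrue τ (lit c 0)) (litTrue τ (lit c 1)) (litTrue τ (lit c 2)) t ht
    unfold wc
    omega
  -- low and high literals
  have wl_lo : ∀ i < m, litTrue τ i = true → wl m nc τ i < m := by
    intro i hi h1
    unfold wl
    rw [if_pos ⟨hi, h1⟩]
    exact hi
  have wl_hi : ∀ i ≤ m, (i < m → litTrue τ i = false) → wl m nc τ i = m + 16 * nc + i := by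
    intro i hi h1
    unfold wl
    rw [if_neg]
    rintro ⟨h2, h3⟩
    rw [h1 h2] at h3
    cases h3
  have hcomp : ∀ k x, x ≠ k → x / 2 = k / 2 → litTrue τ x = !(litTrue τ k) := by
    intro k x h1 h2
    unfold litTrue
    rw [h2]
    by_cases hk : k % 2 = 0
    · have hx : ¬ x % 2 = 0 := by omega
      rw [if_pos hk, if_neg hx]
    · have hx : x % 2 = 0 := by omega
      rw [if_neg hk, if_pos hx]
      simp
  refine ⟨pos' m nc lit τ, ?_, ?_⟩
  · -- injectivity
    intro i hi j hj hij
    unfold nE at hi hj
    have dec : ∀ i < m + 1 + 4 * nc, i ≤ m ∨ ∃ c < nc, ∃ t < 4, i = m + 1 + 4 * c + t := by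
      intro i hi
      by_cases h1 : i ≤ m
      · exact Or.inl h1
      · exact Or.inr ⟨(i - m - 1) / 4, by omega, (i - m - 1) % 4, by omega, by omega⟩
    have wl_cases : ∀ i ≤ m, wl m nc τ i = i ∧ i < m ∨ wl m nc τ i = m + 16 * nc + i := by
      intro i _
      unfold wl
      split_ifs with h1
      · exact Or.inl ⟨rfl, h1.1⟩
      · exact Or.inr rfl
    rcases dec i hi with hi' | ⟨c, hc, t, ht, rfl⟩ <;>
      rcases dec j hj with hj' | ⟨c', hc', t', ht', rfl⟩
    · rw [pl i hi', pl j hj'] at hij
      rcases wl_cases i hi' with h1 | h1 <;> rcases wl_cases j hj' with h2 | h2 <;> omega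
    · exfalso
      rw [pl i hi', pc c' t' ht'] at hij
      have := wc_lo c' t'
      have := wc_hi c' t' ht'
      rcases wl_cases i hi' with h1 | h1 <;> omega
    · exfalso
      rw [pl j hj', pc c t ht] at hij
      have := wc_lo c t
      have := wc_hi c t ht
      rcases wl_cases j hj' with h1 | h1 <;> omega
    · rw [pc c t ht, pc c' t' ht'] at hij
      have h1 := wc_lo c t
      have h2 := wc_hi c t ht
      have h3 := wc_lo c' t'
      have h4 := wc_hi c' t' ht'
      have hcc : c = c' := by omega
      subst hcc
      have htt : t = t' := by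
        unfold wc at hij
        exact wt_inj _ _ _ (hb c hc) t ht t' ht' (by omega)
      subst htt
      rfl
  · intro k hk
    unfold nE at hk ⊢
    by_cases hkm : k ≤ m
    · -- a literal or `m`
      by_cases hlow : k < m ∧ litTrue τ k = true
      · right
        intro x hx hr
        rw [pl k hkm]
        have hk1 := wl_lo k hlow.1 hlow.2
        unfold rel at hr
        rw [if_pos hkm] at hr
        simp only [Bool.and_eq_true, Bool.or_eq_true, decide_eq_true_eq, beq_iff_eq,
          bne_iff_ne] at hr
        obtain ⟨hxk, ⟨h1, h2⟩ | ⟨⟨h1, h2⟩, h3⟩⟩ := hr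
        · have e : x = m + 1 + 4 * ((x - m - 1) / 4) + (x - m - 1) % 4 := by omega
          rw [e, pc _ _ (by omega)]
          have := wc_lo ((x - m - 1) / 4) ((x - m - 1) % 4)
          omega
        · rw [pl x h2.le, wl_hi x h2.le (fun _ => by rw [hcomp k x hxk h3, hlow.2]; rfl)]
          omega
      · left
        intro x hx hr
        rw [pl k hkm]
        have hk1 := wl_hi k hkm (fun h1 => by
          by_contra h2
          exact hlow ⟨h1, by simpa using h2⟩)
        rw [hk1]
        unfold rel at hr
        rw [if_pos hkm] at hr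
        simp only [Bool.and_eq_true, Bool.or_eq_true, decide_eq_true_eq, beq_iff_eq,
          bne_iff_ne] at hr
        obtain ⟨hxk, ⟨h1, h2⟩ | ⟨⟨h1, h2⟩, h3⟩⟩ := hr
        · have e : x = m + 1 + 4 * ((x - m - 1) / 4) + (x - m - 1) % 4 := by omega
          have hc : (x - m - 1) / 4 < nc := by omega
          rw [e, pc _ _ (by omega)]
          have := wc_hi ((x - m - 1) / 4) ((x - m - 1) % 4) (by omega)
          omega
        · have hf : litTrue τ k = false := by
            by_contra h4
            exact hlow ⟨h1, by simpa using h4⟩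
          have := wl_lo x h2 (by rw [hcomp k x hxk h3, hf]; rfl)
          rw [pl x h2.le]
          omega
    · -- an element of a clause
      have hc : (k - m - 1) / 4 < nc := by omega
      have ht : (k - m - 1) % 4 < 4 := by omega
      have ek : k = m + 1 + 4 * ((k - m - 1) / 4) + (k - m - 1) % 4 := by omega
      have hrel : ∀ x, rel m lit k x = true →
          x = lt' m lit ((k - m - 1) / 4) ((k - m - 1) % 4) ∨
          x = m + 1 + 4 * ((k - m - 1) / 4) + ((k - m - 1) % 4 + 3) % 4 := by
        intro x hr
        unfold rel at hr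
        rw [if_neg hkm] at hr
        simp only [Bool.and_eq_true, Bool.or_eq_true, beq_iff_eq, bne_iff_ne] at hr
        exact hr.2
      generalize (k - m - 1) / 4 = c at *
      generalize (k - m - 1) % 4 = t at *
      have hk' : pos' m nc lit τ k = wc m lit τ c t := by rw [ek, pc c t ht]
      have h15 := wc_hi c t ht
      have h0 := wc_lo c t
      obtain ⟨a1, a2, a3, a4, a5, a6⟩ := wt_one _ _ _ (hb c hc)
      have a0 := wt_zero _ _ _ (hb c hc)
      have pm : pos' m nc lit τ m = m + 16 * nc + m := by
        rw [pl m le_rfl, wl_hi m le_rfl (fun h => absurd h (lt_irrefl _))]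
      have plt : ∀ d, litTrue τ (lit c d) = true → pos' m nc lit τ (lit c d) < m := by
        intro d h1
        rw [pl _ (hlit c hc d).le]
        exact wl_lo _ (hlit c hc d) h1
      have plf : ∀ d, litTrue τ (lit c d) = false →
          pos' m nc lit τ (lit c d) = m + 16 * nc + lit c d := by
        intro d h1
        rw [pl _ (hlit c hc d).le]
        exact wl_hi _ (hlit c hc d).le fun _ => h1
      have wlt : ∀ t t', wt (litTrue τ (lit c 0)) (litTrue τ (lit c 1)) (litTrue τ (lit c 2)) t <
          wt (litTrue τ (lit c 0)) (litTrue τ (lit c 1)) (litTrue τ (lit c 2)) t' →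
          wc m lit τ c t < wc m lit τ c t' := by
        intro t t' h1
        unfold wc
        omega
      interval_cases t
      · -- `t = 0`
        right
        intro x hx hr
        rw [hk']
        rcases hrel x hr with h1 | h1
        · rw [h1]
          show _ < pos' m nc lit τ m
          rw [pm]
          omega
        · rw [h1, pc c _ (by norm_num)]
          exact wlt 0 3 a0
      · cases hl : litTrue τ (lit c 0)
        · right
          intro x hx hr
          rw [hk']
          rcases hrel x hr with h1 | h1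
          · rw [h1]
            show _ < pos' m nc lit τ (lit c 0)
            rw [plf 0 hl]
            omega
          · rw [h1, pc c _ (by norm_num)]
            exact wlt 1 0 (a2 hl)
        · left
          intro x hx hr
          rw [hk']
          rcases hrel x hr with h1 | h1
          · rw [h1]
            show pos' m nc lit τ (lit c 0) < _
            have := plt 0 hl
            omega
          · rw [h1, pc c _ (by norm_num)]
            exact wlt 0 1 (a1 hl)
      · cases hl : litTrue τ (lit c 1)
        · right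
          intro x hx hr
          rw [hk']
          rcases hrel x hr with h1 | h1
          · rw [h1]
            show _ < pos' m nc lit τ (lit c 1)
            rw [plf 1 hl]
            omega
          · rw [h1, pc c _ (by norm_num)]
            exact wlt 2 1 (a4 hl)
        · left
          intro x hx hr
          rw [hk']
          rcases hrel x hr with h1 | h1
          · rw [h1]
            show pos' m nc lit τ (lit c 1) < _
            have := plt 1 hl
            omega
          · rw [h1, pc c _ (by norm_num)]
            exact wlt 1 2 (a3 hl)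
      · cases hl : litTrue τ (lit c 2)
        · right
          intro x hx hr
          rw [hk']
          rcases hrel x hr with h1 | h1
          · rw [h1]
            show _ < pos' m nc lit τ (lit c 2)
            rw [plf 2 hl]
            omega
          · rw [h1, pc c _ (by norm_num)]
            exact wlt 3 2 (a6 hl)
        · left
          intro x hx hr
          rw [hk']
          rcases hrel x hr with h1 | h1
          · rw [h1]
            show pos' m nc lit τ (lit c 2) < _
            have := plt 2 hl
            omega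
          · rw [h1, pc c _ (by norm_num)]
            exact wlt 2 3 (a5 hl)

/-- 3-SAT and the betweenness constraints -/
theorem good_iff_sat (hm : m % 2 = 0) (hlit : ∀ c < nc, ∀ d, lit c d < m) :
    Good (nE m nc) (rel m lit) ↔ Sat3 nc lit :=
  ⟨sat_of_good hm hlit, good_of_sat hm hlit⟩

end Pool.Agent.MP_5c36ef_lc
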