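import Mathlib

/-!
# Neighborhood subtree tolerance (NeST) graphs
-/

namespace Pool.Agent.MP_5c36ef_lc

/-- The metric space `X` is (the metric space of all points of) a finite tree whose edges are
segments of positive length: it is nonempty, any two points are joined by a segment (`γ`,
parametrised by arc length), it satisfies the four-point condition, and it is the union of the
segments `[p, q]` with `p, q` in some finite set. -/
structure IsEmbeddedTree (X : Type) [MetricSpace X] : Prop where
  nonempty : Nonempty X
  geodesic : ∀ x y : X, ∃ γ : ℝ → X, γ 0 = x ∧ γ (dist x y) = y ∧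
    ∀ s ∈ Set.Icc 0 (dist x y), ∀ t ∈ Set.Icc 0 (dist x y), dist (γ s) (γ t) = |s - t|
  fourPoint : ∀ x y z w : X,
    dist x y + dist z w ≤ max (dist x z + dist y w) (dist x w + dist y z)
  spanned : ∃ F : Finset X, ∀ x, ∃ p ∈ F, ∃ q ∈ F, dist p x + dist x q = dist p q

/-- `G` is a NeST graph: there are an embedded tree `X`, centres `c v`, radii `r v > 0` and
tolerances `t v > 0` such that distinct `x`, `y` are adjacent if and only if the neighborhood
subtrees `T_x = {p : d(p, c x) ≤ r x}` and `T_y` meet and the diameter of `T_x ∩ T_y` is at least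
`min (t x) (t y)`. -/
def IsNeST {V : Type} (G : SimpleGraph V) : Prop :=
  ∃ (X : Type) (_ : MetricSpace X) (_ : IsEmbeddedTree X) (c : V → X) (r t : V → ℝ),
    (∀ v, 0 < r v) ∧ (∀ v, 0 < t v) ∧
      ∀ x y, x ≠ y → (G.Adj x y ↔
        (Metric.closedBall (c x) (r x) ∩ Metric.closedBall (c y) (r y)).Nonempty ∧
        min (t x) (t y) ≤
          Metric.diam (Metric.closedBall (c x) (r x) ∩ Metric.closedBall (c y) (r y)))

open Classical in
/-- A graph on `n` vertices as a bit string: `n` in unary, a zero, then the `n²` entries of the
adjacency matrix, row by row. -/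
noncomputable def encodeGraph {n : ℕ} (G : SimpleGraph (Fin n)) : List Bool :=
  List.replicate n true ++
    false :: List.ofFn fun i : Fin (n * n) => decide (G.Adj i.divNat i.modNat)

/-- The recognition problem for NeST graphs, as a set of bit strings. -/
def nestProblem : Set (List Bool) :=
  {s | ∃ (n : ℕ) (G : SimpleGraph (Fin n)), s = encodeGraph G ∧ IsNeST G}

end Pool.Agent.MP_5c36ef_lc
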